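import Mathlib
import Pool.Agent.TH639.LS.Crit

/-!
# Tropical rational functions which are monotone on their range
-/

set_option autoImplicit false

open Filter Topology MeasureTheory Pointwise

set_option linter.unusedSectionVars false

namespace Pool.Agent.K3h81.LD

open Pool.Agent.TH639.LS

variable {ι κ : Type*} [Fintype ι] [Nonempty ι] [Fintype κ] [Nonempty κ] (e : ι → ℕ) (g : κ → ℕ)

/-- the tropical rational function -/
noncomputable def G (p : (ι → ℝ) × (κ → ℝ)) (x : ℝ) : ℝ := F e p.1 x - F g p.2 x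

/-- the shift of the coefficients of the numerator -/
def sh (p : (ι → ℝ) × (κ → ℝ)) (s : ℝ) : (ι → ℝ) × (κ → ℝ) := (fun i => p.1 i + s, p.2)

/-- the map is nondecreasing on its range -/
def Mono (p : (ι → ℝ) × (κ → ℝ)) : Prop := MonotoneOn (G e g p) (Set.range (G e g p))

variable {e g}

lemma G_sh (p : (ι → ℝ) × (κ → ℝ)) (s x : ℝ) : G e g (sh p s) x = G e g p x + s := by
  unfold G sh
  simp only
  rw [F_shift]; ring

lemma sh_eq (p : (ι → ℝ) × (κ → ℝ)) (s : ℝ) :
    p + s • ((fun _ => 1, 0) : (ι → ℝ) × (κ → ℝ)) = sh p s := by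
  unfold sh
  ext k <;> simp

lemma continuous_G : Continuous (fun q : ((ι → ℝ) × (κ → ℝ)) × ℝ => G e g q.1 q.2) := by
  unfold G
  exact ((continuous_F (e := e)).comp ((continuous_fst.comp continuous_fst).prodMk
    continuous_snd)).sub ((continuous_F (e := g)).comp
      ((continuous_snd.comp continuous_fst).prodMk continuous_snd))

lemma continuous_G_right (p : (ι → ℝ) × (κ → ℝ)) : Continuous (G e g p) :=
  continuous_G.comp (continuous_const.prodMk continuous_id)

lemma continuous_G_left {Y : (ι → ℝ) × (κ → ℝ) → ℝ} (hY : Continuous Y) :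
    Continuous (fun p => G e g p (Y p)) :=
  continuous_G.comp (continuous_id.prodMk hY)

lemma continuous_orb {Y : (ι → ℝ) × (κ → ℝ) → ℝ} (hY : Continuous Y) (m : ℕ) :
    Continuous (fun p => (G e g p)^[m] (Y p)) := by
  induction m with
  | zero => simpa using hY
  | succ m ih =>
    simp only [Function.iterate_succ_apply']
    exact continuous_G_left ih

lemma exists_eq_G (p : (ι → ℝ) × (κ → ℝ)) (x : ℝ) :
    ∃ i j, G e g p x = p.1 i - p.2 j + ((e i : ℝ) - g j) * x ∧
      F e p.1 x = p.1 i + (e i : ℝ) * x ∧ F g p.2 x = p.2 j + (g j : ℝ) * x := by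
  obtain ⟨i, hi⟩ := exists_eq_F (e := e) p.1 x
  obtain ⟨j, hj⟩ := exists_eq_F (e := g) p.2 x
  refine ⟨i, j, ?_, hi, hj⟩
  unfold G
  rw [hi, hj]; ring

lemma mono_iff (p : (ι → ℝ) × (κ → ℝ)) :
    Mono e g p ↔ ∀ x y, G e g p x < G e g p y → G e g p (G e g p x) ≤ G e g p (G e g p y) := by
  constructor
  · intro h x y hxy
    exact h ⟨x, rfl⟩ ⟨y, rfl⟩ hxy.le
  · rintro h _ ⟨x, rfl⟩ _ ⟨y, rfl⟩ hxy
    rcases lt_or_eq_of_le hxy with h1 | h1
    · exact h x y h1
    · rw [h1]

lemma isClosed_mono : IsClosed {p : (ι → ℝ) × (κ → ℝ) | Mono e g p} := by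
  have : {p : (ι → ℝ) × (κ → ℝ) | Mono e g p} = ⋂ x : ℝ, ⋂ y : ℝ,
      ({p | G e g p x < G e g p y}ᶜ ∪ {p | G e g p (G e g p x) ≤ G e g p (G e g p y)}) := by
    ext p
    simp only [Set.mem_ofPred_eq, mono_iff, Set.mem_iInter, Set.mem_union, Set.mem_compl_iff]
    exact ⟨fun h x y => imp_iff_not_or.1 (h x y), fun h x y => imp_iff_not_or.2 (h x y)⟩
  rw [this]
  refine isClosed_iInter fun x => isClosed_iInter fun y => ?_
  have c1 : ∀ x : ℝ, Continuous (fun p : (ι → ℝ) × (κ → ℝ) => G e g p x) := fun x =>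
    continuous_G_left continuous_const
  have c2 : ∀ x : ℝ, Continuous (fun p : (ι → ℝ) × (κ → ℝ) => G e g p (G e g p x)) := fun x =>
    continuous_G_left (c1 x)
  exact (isOpen_lt (c1 x) (c1 y)).isClosed_compl.union (isClosed_le (c2 x) (c2 y))

lemma ordConnected_range (p : (ι → ℝ) × (κ → ℝ)) : (Set.range (G e g p)).OrdConnected :=
  (isPreconnected_range (continuous_G_right p)).ordConnected

/-- a start value moves at unit speed and is in the range -/
structure IsStart (e : ι → ℕ) (g : κ → ℕ) (Y : (ι → ℝ) × (κ → ℝ) → ℝ) : Prop where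
  cont : Continuous Y
  shift : ∀ p s, Y (sh p s) = Y p + s
  mem : ∀ p, Y p ∈ Set.range (G e g p)

lemma orb_mem {p : (ι → ℝ) × (κ → ℝ)} {y : ℝ} (hy : y ∈ Set.range (G e g p)) (m : ℕ) :
    (G e g p)^[m] y ∈ Set.range (G e g p) := by
  induction m with
  | zero => simpa using hy
  | succ m ih => rw [Function.iterate_succ_apply']; exact ⟨_, rfl⟩

/-- the comparison of the orbits of two shifted maps -/
lemma orb_shift {Y : (ι → ℝ) × (κ → ℝ) → ℝ} (hY : IsStart e g Y) {p : (ι → ℝ) × (κ → ℝ)} {s : ℝ}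
    (hs : 0 < s) (h1 : Mono e g p) (h2 : Mono e g (sh p s))
    (h3 : (∀ x y, G e g p x = G e g p y) ∨ ∃ x y, G e g p x + 2 * s ≤ G e g p y) (m : ℕ) :
    (G e g p)^[m] (Y p) + s ≤ (G e g (sh p s))^[m] (Y (sh p s)) := by
  induction m with
  | zero => simp only [Function.iterate_zero, id_eq]; rw [hY.shift]
  | succ m ih =>
    simp only [Function.iterate_succ_apply']
    rw [G_sh]
    obtain ⟨y, hy⟩ : ∃ y, y = (G e g p)^[m] (Y p) := ⟨_, rfl⟩
    obtain ⟨z, hz⟩ : ∃ z, z = (G e g (sh p s))^[m] (Y (sh p s)) := ⟨_, rfl⟩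
    rw [← hy, ← hz] at ih ⊢
    have hyR : y ∈ Set.range (G e g p) := by rw [hy]; exact orb_mem (hY.mem p) m
    have hzR : z ∈ Set.range (G e g (sh p s)) := by rw [hz]; exact orb_mem (hY.mem _) m
    -- the range of the shifted map
    have hR : ∀ w, w ∈ Set.range (G e g p) → w + s ∈ Set.range (G e g (sh p s)) := by
      rintro w ⟨x, rfl⟩
      exact ⟨x, G_sh p s x⟩
    have hmono2 : ∀ u ∈ Set.range (G e g (sh p s)), ∀ v ∈ Set.range (G e g (sh p s)), u ≤ v →
        G e g p u ≤ G e g p v := by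
      intro u hu v hv huv
      have := h2 hu hv huv
      rw [G_sh, G_sh] at this
      linarith
    have k1 : G e g p (y + s) ≤ G e g p z := hmono2 _ (hR y hyR) _ hzR ih
    rcases h3 with h3 | ⟨a, b, hab⟩
    · have := h3 y z
      linarith
    have k2 : G e g p y ≤ G e g p (y + s) := by
      by_cases hc : y + s ∈ Set.range (G e g p)
      · exact h1 hyR hc (by linarith)
      · have hb : G e g p b < y + s := by
          by_contra hcon
          push Not at hcon
          apply hc
          exact (ordConnected_range p).out hyR ⟨b, rfl⟩ ⟨by linarith, hcon⟩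
        have hm : y - s ∈ Set.range (G e g p) :=
          (ordConnected_range p).out ⟨a, rfl⟩ hyR ⟨by linarith, by linarith⟩
        have h5 := hR _ hm
        rw [sub_add_cancel] at h5
        exact hmono2 _ h5 _ (hR y hyR) (by linarith)
    linarith

/-- a set which is disjoint from all its small translates in the direction `v` is a null set -/
lemma null_of_translate' {E : Type*} [NormedAddCommGroup E] [NormedSpace ℝ E] [MeasurableSpace E]
    [BorelSpace E] [FiniteDimensional ℝ E] {μ : Measure E} [μ.IsAddHaarMeasure] {Z : Set E}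
    (hZ : MeasurableSet Z) (v : E) {ε : ℝ} (hε : 0 < ε)
    (h : ∀ α ∈ Z, ∀ s : ℝ, 0 < s → s < ε → α + s • v ∉ Z) : μ Z = 0 := by
  have hu : Bornology.IsBounded (Set.range fun n : ℕ => (ε * (1 / ((n : ℝ) + 1))) • v) := by
    have h1 : Tendsto (fun n : ℕ => ε * (1 / ((n : ℝ) + 1))) atTop (𝓝 (ε * 0)) :=
      tendsto_one_div_add_atTop_nhds_zero_nat.const_mul ε
    exact Metric.isBounded_range_of_tendsto _ (h1.smul_const v)
  apply Measure.addHaar_eq_zero_of_disjoint_translates μ _ hu _ hZ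
  have key : ∀ m n : ℕ, m < n →
      Disjoint ({(ε * (1 / ((m : ℝ) + 1))) • v} + Z) ({(ε * (1 / ((n : ℝ) + 1))) • v} + Z) := by
    intro m n hmn
    rw [Set.disjoint_left]
    rintro y hy1 hy2
    rw [Set.singleton_add, Set.mem_image] at hy1 hy2
    obtain ⟨a, ha, ha'⟩ := hy1
    obtain ⟨b, hb, hb'⟩ := hy2
    have hm1 : (1 : ℝ) / ((m : ℝ) + 1) ≤ 1 := by
      rw [div_le_one (by positivity)]
      linarith [Nat.cast_nonneg (α := ℝ) m]
    have hn0 : (0 : ℝ) < 1 / ((n : ℝ) + 1) := by positivity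
    have hs : 0 < ε * (1 / ((m : ℝ) + 1)) - ε * (1 / ((n : ℝ) + 1)) := by
      rw [← mul_sub]
      apply mul_pos hε
      rw [sub_pos]
      apply one_div_lt_one_div_of_lt (by positivity)
      have : (m : ℝ) < n := by exact_mod_cast hmn
      linarith
    have hs2 : ε * (1 / ((m : ℝ) + 1)) - ε * (1 / ((n : ℝ) + 1)) < ε := by
      have := mul_pos hε hn0
      nlinarith
    apply h a ha _ hs hs2
    have : a + (ε * (1 / ((m : ℝ) + 1)) - ε * (1 / ((n : ℝ) + 1))) • v = b := by
      have h1 : (ε * (1 / ((m : ℝ) + 1))) • v + a = (ε * (1 / ((n : ℝ) + 1))) • v + b := by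
        rw [ha', hb']
      rw [sub_smul]
      have : b = (ε * (1 / ((m : ℝ) + 1))) • v + a - (ε * (1 / ((n : ℝ) + 1))) • v := by
        rw [h1]; abel
      rw [this]; abel
    rw [this]; exact hb
  intro m n hmn
  rcases lt_or_gt_of_ne hmn with h1 | h1
  · exact key m n h1
  · exact (key n m h1).symm

instance haar : (volume : Measure ((ι → ℝ) × (κ → ℝ))).IsAddHaarMeasure :=
  @Measure.prod.instIsAddHaarMeasure (ι → ℝ) _ _ _ (κ → ℝ) _ _ _ volume volume _ _ _ _ _ _

/-- the orbit of a start value avoids a slow target -/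
lemma null_orb {Y T : (ι → ℝ) × (κ → ℝ) → ℝ} (hY : IsStart e g Y) (hT : Continuous T)
    (hTs : ∀ p s, 0 < s → T (sh p s) < T p + s) (m : ℕ) :
    volume {p : (ι → ℝ) × (κ → ℝ) | Mono e g p ∧ (G e g p)^[m] (Y p) = T p} = 0 := by
  have hcl : IsClosed {p : (ι → ℝ) × (κ → ℝ) | Mono e g p ∧ (G e g p)^[m] (Y p) = T p} :=
    isClosed_mono.inter (isClosed_eq (continuous_orb hY.cont m) hT)
  have c1 : ∀ x : ℝ, Continuous (fun p : (ι → ℝ) × (κ → ℝ) => G e g p x) := fun x =>
    continuous_G_left continuous_const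
  -- the two kinds of pieces
  have hsub : {p : (ι → ℝ) × (κ → ℝ) | Mono e g p ∧ (G e g p)^[m] (Y p) = T p} ⊆
      ({p | Mono e g p ∧ (G e g p)^[m] (Y p) = T p} ∩ {p | ∀ x y, G e g p x = G e g p y}) ∪
      ⋃ k : ℕ, ({p | Mono e g p ∧ (G e g p)^[m] (Y p) = T p} ∩
        {p | ∃ x y, G e g p x + 2 * (1 / ((k : ℝ) + 1)) < G e g p y}) := by
    intro p hp
    by_cases hc : ∀ x y, G e g p x = G e g p y
    · exact Or.inl ⟨hp, hc⟩
    · right
      push Not at hc
      obtain ⟨x, y, hxy⟩ := hc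
      have : ∃ x y, G e g p x < G e g p y := by
        rcases lt_or_gt_of_ne hxy with h | h
        · exact ⟨x, y, h⟩
        · exact ⟨y, x, h⟩
      obtain ⟨x, y, hxy⟩ := this
      obtain ⟨k, hk⟩ := exists_nat_one_div_lt (show 0 < (G e g p y - G e g p x) / 2 by linarith)
      rw [Set.mem_iUnion]
      exact ⟨k, hp, x, y, by linarith⟩
  refine measure_mono_null hsub (measure_union_null ?_ (measure_iUnion_null fun k => ?_))
  · apply null_of_translate' _ ((fun _ => 1, 0) : (ι → ℝ) × (κ → ℝ)) one_pos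
    · rintro p ⟨⟨h1, h2⟩, h3⟩ s hs _ ⟨⟨h4, h5⟩, _⟩
      rw [sh_eq] at h4 h5
      have := orb_shift hY hs h1 h4 (Or.inl h3) m
      rw [h2, h5] at this
      linarith [hTs p s hs]
    · apply MeasurableSet.inter hcl.measurableSet
      apply IsClosed.measurableSet
      have : {p : (ι → ℝ) × (κ → ℝ) | ∀ x y, G e g p x = G e g p y} =
          ⋂ x : ℝ, ⋂ y : ℝ, {p | G e g p x = G e g p y} := by
        ext p; simp
      rw [this]
      exact isClosed_iInter fun x => isClosed_iInter fun y => isClosed_eq (c1 x) (c1 y)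
  · have hk0 : (0 : ℝ) < 1 / ((k : ℝ) + 1) := by positivity
    apply null_of_translate' _ ((fun _ => 1, 0) : (ι → ℝ) × (κ → ℝ)) hk0
    · rintro p ⟨⟨h1, h2⟩, ⟨x, y, h3⟩⟩ s hs hsk ⟨⟨h4, h5⟩, _⟩
      rw [sh_eq] at h4 h5
      have := orb_shift hY hs h1 h4 (Or.inr ⟨x, y, by linarith⟩) m
      rw [h2, h5] at this
      linarith [hTs p s hs]
    · apply MeasurableSet.inter hcl.measurableSet
      apply IsOpen.measurableSet
      have : {p : (ι → ℝ) × (κ → ℝ) | ∃ x y, G e g p x + 2 * (1 / ((k : ℝ) + 1)) < G e g p y} =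
          ⋃ x : ℝ, ⋃ y : ℝ, {p | G e g p x + 2 * (1 / ((k : ℝ) + 1)) < G e g p y} := by
        ext p; simp
      rw [this]
      exact isOpen_iUnion fun x => isOpen_iUnion fun y =>
        isOpen_lt ((c1 x).add continuous_const) (c1 y)

/-- a convergent monotone orbit reaches a fixed point -/
lemma lim_fixed {p : (ι → ℝ) × (κ → ℝ)} {y : ℕ → ℝ} (hstep : ∀ m, y (m + 1) = G e g p (y m))
    {l : ℝ} (hlim : Tendsto y atTop (𝓝 l)) (hord : Monotone y ∨ Antitone y) :
    ∃ m, G e g p (y m) = y m := by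
  by_contra hcon
  push Not at hcon
  -- a pair of indices which occurs infinitely often
  have hpair : ∃ q : ι × κ, ∃ᶠ m in atTop, G e g p (y m) =
      p.1 q.1 - p.2 q.2 + ((e q.1 : ℝ) - g q.2) * y m := by
    by_contra h
    push Not at h
    have h1 : ∀ᶠ m in atTop, ∀ q : ι × κ, G e g p (y m) ≠
        p.1 q.1 - p.2 q.2 + ((e q.1 : ℝ) - g q.2) * y m := by
      rw [Filter.eventually_all]
      intro q
      exact h q
    obtain ⟨m, hm⟩ := h1.exists
    obtain ⟨i, j, hij, -⟩ := exists_eq_G (e := e) (g := g) p (y m)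
    exact hm (i, j) hij
  obtain ⟨⟨i, j⟩, hq⟩ := hpair
  simp only at hq
  have hGl : G e g p l = l := by
    have h1 : Tendsto (fun m => G e g p (y m)) atTop (𝓝 (G e g p l)) :=
      ((continuous_G_right p).tendsto l).comp hlim
    have h2 : Tendsto (fun m => y (m + 1)) atTop (𝓝 l) := (tendsto_add_atTop_iff_nat 1).2 hlim
    refine tendsto_nhds_unique h1 (h2.congr fun m => hstep m)
  have hl : l = p.1 i - p.2 j + ((e i : ℝ) - g j) * l := by
    have h1 : Tendsto (fun m => G e g p (y m) - (p.1 i - p.2 j + ((e i : ℝ) - g j) * y m)) atTop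
        (𝓝 (G e g p l - (p.1 i - p.2 j + ((e i : ℝ) - g j) * l))) :=
      (((continuous_G_right p).tendsto l).comp hlim).sub ((hlim.const_mul _).const_add _)
    have h2 : G e g p l - (p.1 i - p.2 j + ((e i : ℝ) - g j) * l) ∈ closure ({0} : Set ℝ) :=
      mem_closure_of_frequently_of_tendsto (hq.mono fun m hm => by simp [hm]) h1
    rw [closure_singleton, Set.mem_singleton_iff, hGl] at h2
    linarith
  obtain ⟨m, hm⟩ := hq.exists
  have e1 : y (m + 1) - l = ((e i : ℝ) - g j) * (y m - l) := by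
    rw [hstep, hm]; linear_combination -hl
  have hne : ∀ k, y k ≠ l := by
    intro k hk
    apply hcon k
    rw [hk, hGl]
  have hne2 : y (m + 1) ≠ y m := by rw [hstep]; exact hcon m
  -- the slope is an integer between `0` and `1`
  have key : ∀ u v : ℝ, 0 < u → u < v → u = ((e i : ℝ) - g j) * v → False := by
    intro u v h1 h2 h3
    have h4 : (0 : ℝ) < (e i : ℝ) - g j := by
      by_contra h
      push Not at h
      nlinarith
    have h5 : (e i : ℝ) - g j < 1 := by
      by_contra h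
      push Not at h
      nlinarith
    have h6 : (g j : ℝ) < e i := by linarith
    have h7 : g j < e i := by exact_mod_cast h6
    have h8 : ((g j + 1 : ℕ) : ℝ) ≤ e i := by exact_mod_cast h7
    push_cast at h8
    linarith
  rcases hord with hmon | hanti
  · have h1 : y m ≤ y (m + 1) := hmon (Nat.le_succ m)
    have h2 : y (m + 1) ≤ l := hmon.ge_of_tendsto hlim (m + 1)
    have h3 := lt_of_le_of_ne h2 (hne _)
    have h4 := lt_of_le_of_ne h1 (Ne.symm hne2)
    exact key (l - y (m + 1)) (l - y m) (by linarith) (by linarith) (by linear_combination -e1)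
  · have h1 : y (m + 1) ≤ y m := hanti (Nat.le_succ m)
    have h2 : l ≤ y (m + 1) := hanti.le_of_tendsto hlim (m + 1)
    have h3 := lt_of_le_of_ne h2 (Ne.symm (hne _))
    have h4 := lt_of_le_of_ne h1 hne2
    exact key (y (m + 1) - l) (y m - l) (by linarith) (by linarith) e1

/-- the trichotomy -/
lemma tricho {p : (ι → ℝ) × (κ → ℝ)} (hp : Mono e g p) {y : ℝ} (hy : y ∈ Set.range (G e g p)) :
    (∃ m, G e g p ((G e g p)^[m] y) = (G e g p)^[m] y) ∨
      Tendsto (fun m : ℕ => (G e g p)^[m] y) atTop atTop ∨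
      Tendsto (fun m : ℕ => (G e g p)^[m] y) atTop atBot := by
  have hstep : ∀ m, (G e g p)^[m + 1] y = G e g p ((G e g p)^[m] y) := fun m =>
    Function.iterate_succ_apply' _ _ _
  rcases le_total y (G e g p y) with h | h
  · have hmon : Monotone (fun m : ℕ => (G e g p)^[m] y) := by
      apply monotone_nat_of_le_succ
      intro m
      induction m with
      | zero => simpa using h
      | succ m ih =>
        simp only [hstep] at ih ⊢
        exact hp (orb_mem hy m) ⟨_, rfl⟩ ih
    rcases tendsto_atTop_of_monotone hmon with h1 | ⟨l, h1⟩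
    · exact Or.inr (Or.inl h1)
    · exact Or.inl (lim_fixed hstep h1 (Or.inl hmon))
  · have hmon : Antitone (fun m : ℕ => (G e g p)^[m] y) := by
      apply antitone_nat_of_succ_le
      intro m
      induction m with
      | zero => simpa using h
      | succ m ih =>
        simp only [hstep] at ih ⊢
        exact hp ⟨_, rfl⟩ (orb_mem hy m) ih
    rcases tendsto_atTop_of_antitone hmon with h1 | ⟨l, h1⟩
    · exact Or.inr (Or.inr h1)
    · exact Or.inl (lim_fixed hstep h1 (Or.inr hmon))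

end Pool.Agent.K3h81.LD
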