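import Mathlib
import Pool.Agent.K3h81.LD.Trop

/-!
# Generic directions
-/

set_option autoImplicit false

open Filter Topology MeasureTheory

set_option linter.unusedSectionVars false

namespace Pool.Agent.K3h81.LD

open Pool.Agent.TH639.LS

variable {ι κ : Type*} [Fintype ι] [Nonempty ι] [Fintype κ] [Nonempty κ] {e : ι → ℕ} {g : κ → ℕ}

/-- the index `i` is strictly dominant at `x` -/
def Dm (e : ι → ℕ) (α : ι → ℝ) (x : ℝ) (i : ι) : Prop :=
  ∀ k, k ≠ i → α k + (e k : ℝ) * x < α i + (e i : ℝ) * x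

lemma Dm.eq {α : ι → ℝ} {x : ℝ} {i : ι} (h : Dm e α x i) : F e α x = α i + (e i : ℝ) * x := by
  apply le_antisymm _ (le_F α x i)
  refine F_le fun k => ?_
  by_cases hk : k = i
  · rw [hk]
  · exact (h k hk).le

lemma dm_bot {α : ι → ℝ} {i : ι} (hmin : ∀ k, k ≠ i → e i < e k) :
    ∀ᶠ x in atBot, Dm e α x i := by
  unfold Dm
  rw [Filter.eventually_all]
  intro k
  by_cases hk : k = i
  · exact Eventually.of_forall fun x h => absurd hk h
  · have hpos : (0 : ℝ) < (e k : ℝ) - e i := by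
      have : (e i : ℝ) < e k := by exact_mod_cast hmin k hk
      linarith
    filter_upwards [(tendsto_id.const_mul_atBot hpos).eventually_lt_atBot (α i - α k)]
      with x hx _
    have : ((e k : ℝ) - e i) * x < α i - α k := hx
    linarith

lemma dm_top {α : ι → ℝ} {i : ι} (hmax : ∀ k, k ≠ i → e k < e i) :
    ∀ᶠ x in atTop, Dm e α x i := by
  unfold Dm
  rw [Filter.eventually_all]
  intro k
  by_cases hk : k = i
  · exact Eventually.of_forall fun x h => absurd hk h
  · have hpos : (0 : ℝ) < (e i : ℝ) - e k := by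
      have : (e k : ℝ) < e i := by exact_mod_cast hmax k hk
      linarith
    filter_upwards [(tendsto_id.const_mul_atTop hpos).eventually_gt_atTop (α k - α i)]
      with x hx _
    have : α k - α i < ((e i : ℝ) - e k) * x := hx
    linarith

lemma xx_eq {α : ι → ℝ} {x : ℝ} {k m : ι} (hne : e k ≠ e m)
    (h : α k + (e k : ℝ) * x = α m + (e m : ℝ) * x) : x = xx e k m α := by
  have hne' : (e m : ℝ) - e k ≠ 0 := by
    intro h0
    apply hne
    have : (e k : ℝ) = e m := by linarith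
    exact_mod_cast this
  unfold xx
  rw [eq_div_iff hne']
  linarith

lemma dm_of_ne (he : Function.Injective e) {α : ι → ℝ} {x : ℝ} (h : ∀ k l, x ≠ xx e k l α) :
    ∃ i, Dm e α x i := by
  obtain ⟨m, hm⟩ := exists_eq_F (e := e) α x
  refine ⟨m, fun k hk => ?_⟩
  rw [← hm]
  refine lt_of_le_of_ne (le_F α x k) ?_
  rw [hm]
  intro hcon
  exact h k m (xx_eq (fun h => hk (he h)) hcon)

/-- where the lines of two pairs of indices meet -/
noncomputable def xp (e : ι → ℕ) (g : κ → ℕ) (u v : ι × κ) (p : (ι → ℝ) × (κ → ℝ)) : ℝ :=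
  (p.1 u.1 + p.2 u.2 - (p.1 v.1 + p.2 v.2)) /
    (((e v.1 : ℝ) + g v.2) - ((e u.1 : ℝ) + g u.2))

lemma continuous_xp (u v : ι × κ) : Continuous (xp e g u v) := by
  unfold xp
  fun_prop

/-- a start value whose orbit avoids the corners and the fixed points with nonzero slope -/
structure Good (e : ι → ℕ) (g : κ → ℕ) (p : (ι → ℝ) × (κ → ℝ)) (y : ℝ) : Prop where
  mem : y ∈ Set.range (G e g p)
  A : ∀ (m : ℕ) (k l : ι), (G e g p)^[m] y ≠ xx e k l p.1
  B : ∀ (m : ℕ) (k l : κ), (G e g p)^[m] y ≠ xx g k l p.2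
  fix : ∀ (m : ℕ) (i : ι) (j : κ), e i ≠ g j → e i ≠ g j + 1 →
    (G e g p)^[m] y ≠ (p.1 i - p.2 j) / (1 - ((e i : ℝ) - g j))

lemma ae_good {Y : (ι → ℝ) × (κ → ℝ) → ℝ} (hY : IsStart e g Y) :
    ∀ᵐ p : (ι → ℝ) × (κ → ℝ), Mono e g p → Good e g p (Y p) := by
  have h1 : ∀ᵐ p : (ι → ℝ) × (κ → ℝ), ∀ (m : ℕ) (k l : ι),
      ¬ (Mono e g p ∧ (G e g p)^[m] (Y p) = xx e k l p.1) := by
    simp only [ae_all_iff]
    intro m k l
    rw [ae_iff]
    simp only [not_not]
    refine null_orb hY (T := fun p => xx e k l p.1) ((continuous_xx k l).comp continuous_fst) ?_ m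
    intro p s hs
    unfold sh
    simp only
    rw [xx_shift]
    linarith
  have h2 : ∀ᵐ p : (ι → ℝ) × (κ → ℝ), ∀ (m : ℕ) (k l : κ),
      ¬ (Mono e g p ∧ (G e g p)^[m] (Y p) = xx g k l p.2) := by
    simp only [ae_all_iff]
    intro m k l
    rw [ae_iff]
    simp only [not_not]
    refine null_orb hY (T := fun p => xx g k l p.2) ((continuous_xx k l).comp continuous_snd) ?_ m
    intro p s hs
    unfold sh
    simp only
    linarith
  have h3 : ∀ᵐ p : (ι → ℝ) × (κ → ℝ), ∀ (m : ℕ) (i : ι) (j : κ), e i ≠ g j → e i ≠ g j + 1 →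
      ¬ (Mono e g p ∧ (G e g p)^[m] (Y p) = (p.1 i - p.2 j) / (1 - ((e i : ℝ) - g j))) := by
    simp only [ae_all_iff]
    intro m i j h1 h2
    rw [ae_iff]
    simp only [not_not]
    refine null_orb hY (T := fun p => (p.1 i - p.2 j) / (1 - ((e i : ℝ) - g j))) (by fun_prop) ?_ m
    intro p s hs
    unfold sh
    simp only
    have hlt : 1 / (1 - ((e i : ℝ) - g j)) < 1 := by
      rcases lt_or_gt_of_ne h1 with h | h
      · have : ((e i : ℝ)) < g j := by exact_mod_cast h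
        rw [div_lt_one (by linarith)]
        linarith
      · have h4 : g j + 2 ≤ e i := by omega
        have : ((g j : ℝ)) + 2 ≤ e i := by exact_mod_cast h4
        have h5 : 1 / (1 - ((e i : ℝ) - g j)) < 0 := one_div_neg.2 (by linarith)
        linarith
    have e1 : (p.1 i + s - p.2 j) / (1 - ((e i : ℝ) - g j)) =
        (p.1 i - p.2 j) / (1 - ((e i : ℝ) - g j)) + s * (1 / (1 - ((e i : ℝ) - g j))) := by ring
    rw [e1]
    nlinarith
  filter_upwards [h1, h2, h3] with p a1 a2 a3 hp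
  exact ⟨hY.mem p, fun m k l h => a1 m k l ⟨hp, h⟩, fun m k l h => a2 m k l ⟨hp, h⟩,
    fun m i j h1 h2 h => a3 m i j h1 h2 ⟨hp, h⟩⟩

lemma start_crit (u v : ι × κ) : IsStart e g (fun p => G e g p (xp e g u v p)) := by
  refine ⟨continuous_G_left (continuous_xp u v), fun p s => ?_, fun p => ⟨_, rfl⟩⟩
  have : xp e g u v (sh p s) = xp e g u v p := by
    unfold xp sh
    simp only
    congr 1
    ring
  rw [this, G_sh]

lemma null_lin {A : (ι → ℝ) × (κ → ℝ) → ℝ} (hA : Continuous A) (v : (ι → ℝ) × (κ → ℝ)) {c : ℝ}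
    (hc : c ≠ 0) (h : ∀ p (s : ℝ), A (p + s • v) = A p + c * s) :
    volume {p : (ι → ℝ) × (κ → ℝ) | A p = 0} = 0 := by
  apply null_of_translate' _ v one_pos
  · intro p hp s hs _ hcon
    rw [Set.mem_ofPred_eq] at hp hcon
    rw [h, hp, zero_add] at hcon
    rcases mul_eq_zero.1 hcon with h1 | h1
    · exact hc h1
    · exact hs.ne' h1
  · exact (isClosed_eq hA continuous_const).measurableSet

/-- the generic directions -/
structure Gen (e : ι → ℕ) (g : κ → ℕ) (p : (ι → ℝ) × (κ → ℝ)) : Prop where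
  colA : ∀ i j k, i ≠ j → i ≠ k → j ≠ k → p.1 i * ((e j : ℝ) - e k) + p.1 j * ((e k : ℝ) - e i) +
    p.1 k * ((e i : ℝ) - e j) ≠ 0
  colB : ∀ i j k, i ≠ j → i ≠ k → j ≠ k → p.2 i * ((g j : ℝ) - g k) + p.2 j * ((g k : ℝ) - g i) +
    p.2 k * ((g i : ℝ) - g j) ≠ 0
  brk : ∀ i i', i ≠ i' → ∀ j j', j ≠ j' → xx e i i' p.1 ≠ xx g j j' p.2
  one : ∀ i j, p.1 i ≠ p.2 j
  crit : ∀ u v, Good e g p (G e g p (xp e g u v p))

theorem ae_gen (he : Function.Injective e) (hg : Function.Injective g) :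
    ∀ᵐ p : (ι → ℝ) × (κ → ℝ), Mono e g p → Gen e g p := by
  classical
  have h1 : ∀ᵐ α : ι → ℝ, ∀ i j k, i ≠ j → i ≠ k → j ≠ k →
      α i * ((e j : ℝ) - e k) + α j * ((e k : ℝ) - e i) + α k * ((e i : ℝ) - e j) ≠ 0 := by
    simp only [ae_all_iff]
    intro i j k hij hik hjk
    rw [ae_iff]
    simp only [not_not]
    exact null_collinear i j k (fun h => hjk (he h)) hij hik
  have h2 : ∀ᵐ α : κ → ℝ, ∀ i j k, i ≠ j → i ≠ k → j ≠ k →
      α i * ((g j : ℝ) - g k) + α j * ((g k : ℝ) - g i) + α k * ((g i : ℝ) - g j) ≠ 0 := by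
    simp only [ae_all_iff]
    intro i j k hij hik hjk
    rw [ae_iff]
    simp only [not_not]
    exact null_collinear i j k (fun h => hjk (hg h)) hij hik
  have h1' : ∀ᵐ p : (ι → ℝ) × (κ → ℝ), ∀ i j k, i ≠ j → i ≠ k → j ≠ k →
      p.1 i * ((e j : ℝ) - e k) + p.1 j * ((e k : ℝ) - e i) + p.1 k * ((e i : ℝ) - e j) ≠ 0 :=
    (Measure.quasiMeasurePreserving_fst (μ := (volume : Measure (ι → ℝ)))
      (ν := (volume : Measure (κ → ℝ)))).ae h1
  have h2' : ∀ᵐ p : (ι → ℝ) × (κ → ℝ), ∀ i j k, i ≠ j → i ≠ k → j ≠ k →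
      p.2 i * ((g j : ℝ) - g k) + p.2 j * ((g k : ℝ) - g i) + p.2 k * ((g i : ℝ) - g j) ≠ 0 :=
    (Measure.quasiMeasurePreserving_snd (μ := (volume : Measure (ι → ℝ)))
      (ν := (volume : Measure (κ → ℝ)))).ae h2
  have h3 : ∀ᵐ p : (ι → ℝ) × (κ → ℝ), ∀ i i', i ≠ i' → ∀ j j', j ≠ j' →
      xx e i i' p.1 ≠ xx g j j' p.2 := by
    simp only [ae_all_iff]
    intro i i' hi j j' hj
    rw [ae_iff]
    simp only [not_not]
    have hne : (e i' : ℝ) - e i ≠ 0 := by
      intro h0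
      apply hi
      apply he
      have : (e i : ℝ) = e i' := by linarith
      exact_mod_cast this
    have := null_lin (A := fun p : (ι → ℝ) × (κ → ℝ) => xx e i i' p.1 - xx g j j' p.2)
      (((continuous_xx i i').comp continuous_fst).sub ((continuous_xx j j').comp continuous_snd))
      (Pi.single i 1, 0) (c := 1 / ((e i' : ℝ) - e i)) (one_div_ne_zero hne) (fun p s => by
        simp only [xx, Prod.fst_add, Prod.snd_add, Prod.smul_fst, Prod.smul_snd, smul_zero,
          add_zero, Pi.add_apply, Pi.smul_apply, Pi.single_eq_same, Pi.single_eq_of_ne hi.symm,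
          smul_eq_mul, mul_one, mul_zero, Pi.zero_apply]
        ring)
    simpa only [sub_eq_zero] using this
  have h5 : ∀ᵐ p : (ι → ℝ) × (κ → ℝ), ∀ i j, p.1 i ≠ p.2 j := by
    simp only [ae_all_iff]
    intro i j
    rw [ae_iff]
    simp only [not_not]
    have := null_lin (A := fun p : (ι → ℝ) × (κ → ℝ) => p.1 i - p.2 j)
        (by fun_prop) (Pi.single i 1, 0) (c := 1) one_ne_zero (fun p s => by
          simp only [Prod.fst_add, Prod.snd_add, Prod.smul_fst, Prod.smul_snd, smul_zero,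
            add_zero, Pi.add_apply, Pi.smul_apply, Pi.single_eq_same, smul_eq_mul, mul_one,
            Pi.zero_apply]
          ring)
    simpa only [sub_eq_zero] using this
  have h6 : ∀ᵐ p : (ι → ℝ) × (κ → ℝ), ∀ u v, Mono e g p → Good e g p (G e g p (xp e g u v p)) := by
    simp only [ae_all_iff]
    intro u v
    exact ae_good (start_crit u v)
  filter_upwards [h1', h2', h3, h5, h6] with p a1 a2 a3 a5 a6 hp
  exact ⟨a1, a2, a3, a5, fun u v => a6 u v hp⟩

/-- the fate of a good start value -/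
lemma classify (he : Function.Injective e) (hg : Function.Injective g)
    {p : (ι → ℝ) × (κ → ℝ)} (hone : ∀ i j, p.1 i ≠ p.2 j) (hp : Mono e g p) {y : ℝ}
    (hy : Good e g p y) :
    (∃ m i j, e i = g j ∧ (G e g p)^[m] y = p.1 i - p.2 j ∧ Dm e p.1 ((G e g p)^[m] y) i ∧
      Dm g p.2 ((G e g p)^[m] y) j) ∨
      Tendsto (fun m : ℕ => (G e g p)^[m] y) atTop atTop ∨
      Tendsto (fun m : ℕ => (G e g p)^[m] y) atTop atBot := by
  rcases tricho hp hy.mem with ⟨m, hm⟩ | h
  · left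
    obtain ⟨i, hi⟩ := dm_of_ne he (hy.A m)
    obtain ⟨j, hj⟩ := dm_of_ne hg (hy.B m)
    have hfix : F e p.1 ((G e g p)^[m] y) - F g p.2 ((G e g p)^[m] y) = (G e g p)^[m] y := hm
    rw [hi.eq, hj.eq] at hfix
    obtain ⟨z, hz⟩ : ∃ z, z = (G e g p)^[m] y := ⟨_, rfl⟩
    have h3 := hy.fix m i j
    rw [← hz] at hfix h3 hi hj
    by_cases hij : e i = g j
    · refine ⟨m, i, j, hij, ?_, by rw [← hz]; exact hi, by rw [← hz]; exact hj⟩
      rw [← hz]
      rw [hij] at hfix
      linarith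
    · exfalso
      by_cases hij1 : e i = g j + 1
      · apply hone i j
        rw [hij1] at hfix
        push_cast at hfix
        linarith
      · apply h3 hij hij1
        have hne : 1 - ((e i : ℝ) - g j) ≠ 0 := by
          intro h0
          apply hij1
          have : (e i : ℝ) = ((g j + 1 : ℕ) : ℝ) := by push_cast; linarith
          exact_mod_cast this
        rw [eq_div_iff hne]
        linarith
  · exact Or.inr h

/-- two indices are dominant at `x` -/
def Tw (e : ι → ℕ) (α : ι → ℝ) (x : ℝ) (i₁ i₂ : ι) : Prop :=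
  i₁ ≠ i₂ ∧ α i₁ + (e i₁ : ℝ) * x = α i₂ + (e i₂ : ℝ) * x ∧
    ∀ k, k ≠ i₁ → k ≠ i₂ → α k + (e k : ℝ) * x < α i₁ + (e i₁ : ℝ) * x

lemma Tw.eq {α : ι → ℝ} {x : ℝ} {i₁ i₂ : ι} (h : Tw e α x i₁ i₂) :
    F e α x = α i₁ + (e i₁ : ℝ) * x := by
  apply le_antisymm _ (le_F α x i₁)
  refine F_le fun k => ?_
  by_cases hk : k = i₁
  · rw [hk]
  by_cases hk2 : k = i₂
  · rw [hk2, h.2.1]
  · exact (h.2.2 k hk hk2).le

lemma dm_or_tw {α : ι → ℝ} (hcol : ∀ i j k, i ≠ j → i ≠ k → j ≠ k →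
      α i * ((e j : ℝ) - e k) + α j * ((e k : ℝ) - e i) + α k * ((e i : ℝ) - e j) ≠ 0) (x : ℝ) :
    (∃ i, Dm e α x i) ∨ ∃ i₁ i₂, Tw e α x i₁ i₂ := by
  obtain ⟨m, hm⟩ := exists_eq_F (e := e) α x
  by_cases h : ∃ k, k ≠ m ∧ α k + (e k : ℝ) * x = α m + (e m : ℝ) * x
  · right
    obtain ⟨k, hk, hkm⟩ := h
    refine ⟨m, k, Ne.symm hk, hkm.symm, fun n hn1 hn2 => ?_⟩
    rw [← hm]
    refine lt_of_le_of_ne (le_F α x n) ?_
    rw [hm]
    intro hcon
    apply hcol n m k hn1 hn2 (Ne.symm hk)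
    have h1 : α k = α m + (e m : ℝ) * x - (e k : ℝ) * x := by linarith
    have h2 : α n = α m + (e m : ℝ) * x - (e n : ℝ) * x := by linarith
    rw [h1, h2]
    ring
  · left
    push Not at h
    refine ⟨m, fun k hk => ?_⟩
    rw [← hm]
    refine lt_of_le_of_ne (le_F α x k) ?_
    rw [hm]
    exact h k hk

/-- `x` is not a corner of the numerator or of the denominator -/
def Reg (e : ι → ℕ) (g : κ → ℕ) (p : (ι → ℝ) × (κ → ℝ)) (x : ℝ) : Prop :=
  (∃ i, Dm e p.1 x i) ∧ ∃ j, Dm g p.2 x j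

/-- `x` is in a flat piece -/
def Flt (e : ι → ℕ) (g : κ → ℕ) (p : (ι → ℝ) × (κ → ℝ)) (x : ℝ) : Prop :=
  ∃ i j, Dm e p.1 x i ∧ Dm g p.2 x j ∧ e i = g j

/-- the orbit of `y` avoids the corners and is captured by a flat cycle with period in `S`, or
escapes -/
structure Capt (S : Set ℕ) (e : ι → ℕ) (g : κ → ℕ) (p : (ι → ℝ) × (κ → ℝ)) (y : ℝ) : Prop where
  reg : ∀ m : ℕ, Reg e g p ((G e g p)^[m] y)
  fate : (∃ m n : ℕ, n ∈ S ∧ 0 < n ∧ (G e g p)^[m + n] y = (G e g p)^[m] y ∧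
      Flt e g p ((G e g p)^[m] y)) ∨
    Tendsto (fun m : ℕ => (G e g p)^[m] y) atTop atTop ∨
      Tendsto (fun m : ℕ => (G e g p)^[m] y) atTop atBot

/-- tropically hyperbolic directions -/
structure TH (S : Set ℕ) (e : ι → ℕ) (g : κ → ℕ) (p : (ι → ℝ) × (κ → ℝ)) : Prop where
  simple : ∀ x, ((∃ i, Dm e p.1 x i) ∧ ((∃ j, Dm g p.2 x j) ∨ ∃ j₁ j₂, Tw g p.2 x j₁ j₂)) ∨
    ((∃ i₁ i₂, Tw e p.1 x i₁ i₂) ∧ ∃ j, Dm g p.2 x j)
  cap : ∀ x, ¬ Reg e g p x → Capt S e g p (G e g p x)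

lemma lin_zero {c d : ℝ} (h : ∀ y : ℝ, c * y < d) : c = 0 := by
  by_contra hc
  have := h (d / c)
  rw [mul_div_cancel₀ _ hc] at this
  exact lt_irrefl _ this

/-- the value of a flat piece is the value at a corner -/
lemma corner_flat (he : Function.Injective e) (hg : Function.Injective g)
    {p : (ι → ℝ) × (κ → ℝ)} {i : ι} {j : κ} {x : ℝ} (hi : Dm e p.1 x i) (hj : Dm g p.2 x j)
    (hij : e i = g j) {j₀ : κ} (hj₀ : g j₀ = 0) {i₁ : ι} (hpos : 0 < e i₁) :
    ∃ x', ¬ Reg e g p x' ∧ G e g p x' = p.1 i - p.2 j := by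
  by_contra hcon
  push Not at hcon
  have hreg : ∀ x', G e g p x' = p.1 i - p.2 j → Reg e g p x' := by
    intro x' h
    by_contra h'
    exact hcon x' h' h
  have hS : ({y : ℝ | Dm e p.1 y i ∧ Dm g p.2 y j} : Set ℝ) = Set.univ := by
    refine IsClopen.eq_univ ⟨?_, ?_⟩ ⟨x, hi, hj⟩
    · apply isClosed_of_closure_subset
      intro y hy
      have h1 : ∀ k, p.1 k + (e k : ℝ) * y ≤ p.1 i + (e i : ℝ) * y := by
        intro k
        have hcl : IsClosed {y : ℝ | p.1 k + (e k : ℝ) * y ≤ p.1 i + (e i : ℝ) * y} :=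
          isClosed_le (by fun_prop) (by fun_prop)
        refine hcl.closure_subset_iff.2 ?_ hy
        rintro z ⟨hz, -⟩
        by_cases hk : k = i
        · rw [hk]; exact le_refl (p.1 i + (e i : ℝ) * z)
        · exact (hz k hk).le
      have h2 : ∀ k, p.2 k + (g k : ℝ) * y ≤ p.2 j + (g j : ℝ) * y := by
        intro k
        have hcl : IsClosed {y : ℝ | p.2 k + (g k : ℝ) * y ≤ p.2 j + (g j : ℝ) * y} :=
          isClosed_le (by fun_prop) (by fun_prop)
        refine hcl.closure_subset_iff.2 ?_ hy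
        rintro z ⟨-, hz⟩
        by_cases hk : k = j
        · rw [hk]; exact le_refl (p.2 j + (g j : ℝ) * z)
        · exact (hz k hk).le
      have h3 : F e p.1 y = p.1 i + (e i : ℝ) * y := le_antisymm (F_le h1) (le_F _ _ i)
      have h4 : F g p.2 y = p.2 j + (g j : ℝ) * y := le_antisymm (F_le h2) (le_F _ _ j)
      obtain ⟨⟨i', hi'⟩, ⟨j', hj'⟩⟩ := hreg y (by
        unfold G
        rw [h3, h4, hij]; ring)
      have e1 : i' = i := by
        by_contra hne
        have := hi' i (Ne.symm hne)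
        have := h1 i'
        linarith
      have e2 : j' = j := by
        by_contra hne
        have := hj' j (Ne.symm hne)
        have := h2 j'
        linarith
      rw [e1] at hi'
      rw [e2] at hj'
      exact ⟨hi', hj'⟩
    · apply IsOpen.inter
      · have : {y : ℝ | ∀ k, k ≠ i → p.1 k + (e k : ℝ) * y < p.1 i + (e i : ℝ) * y} =
            ⋂ k : ι, {y : ℝ | k ≠ i → p.1 k + (e k : ℝ) * y < p.1 i + (e i : ℝ) * y} := by
          ext y; simp
        change IsOpen {y : ℝ | ∀ k, k ≠ i → p.1 k + (e k : ℝ) * y < p.1 i + (e i : ℝ) * y}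
        rw [this]
        refine isOpen_iInter_of_finite fun k => ?_
        by_cases hk : k = i
        · simp [hk]
        · simp only [ne_eq, hk, not_false_eq_true, true_imp_iff]
          exact isOpen_lt (by fun_prop) (by fun_prop)
      · have : {y : ℝ | ∀ k, k ≠ j → p.2 k + (g k : ℝ) * y < p.2 j + (g j : ℝ) * y} =
            ⋂ k : κ, {y : ℝ | k ≠ j → p.2 k + (g k : ℝ) * y < p.2 j + (g j : ℝ) * y} := by
          ext y; simp
        change IsOpen {y : ℝ | ∀ k, k ≠ j → p.2 k + (g k : ℝ) * y < p.2 j + (g j : ℝ) * y}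
        rw [this]
        refine isOpen_iInter_of_finite fun k => ?_
        by_cases hk : k = j
        · simp [hk]
        · simp only [ne_eq, hk, not_false_eq_true, true_imp_iff]
          exact isOpen_lt (by fun_prop) (by fun_prop)
  have hall : ∀ y : ℝ, Dm e p.1 y i ∧ Dm g p.2 y j := by
    intro y
    have : y ∈ ({y : ℝ | Dm e p.1 y i ∧ Dm g p.2 y j} : Set ℝ) := by rw [hS]; trivial
    exact this
  have e1 : i₁ = i := by
    by_contra hne
    have h1 : ∀ y : ℝ, ((e i₁ : ℝ) - e i) * y < p.1 i - p.1 i₁ := by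
      intro y
      have := (hall y).1 i₁ hne
      linarith
    have h2 := lin_zero h1
    apply hne
    apply he
    have : (e i₁ : ℝ) = e i := by linarith
    exact_mod_cast this
  have e2 : j₀ = j := by
    by_contra hne
    have h1 : ∀ y : ℝ, ((g j₀ : ℝ) - g j) * y < p.2 j - p.2 j₀ := by
      intro y
      have := (hall y).2 j₀ hne
      linarith
    have h2 := lin_zero h1
    apply hne
    apply hg
    have : (g j₀ : ℝ) = g j := by linarith
    exact_mod_cast this
  rw [e1, hij, ← e2, hj₀] at hpos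
  exact lt_irrefl _ hpos

/-- the values of the flat pieces are captured -/
lemma TH.flat {S : Set ℕ} {p : (ι → ℝ) × (κ → ℝ)} (h : TH S e g p) (he : Function.Injective e)
    (hg : Function.Injective g) {i : ι} {j : κ} {x : ℝ} (hi : Dm e p.1 x i) (hj : Dm g p.2 x j)
    (hij : e i = g j) {j₀ : κ} (hj₀ : g j₀ = 0) {i₁ : ι} (hpos : 0 < e i₁) :
    Capt S e g p (p.1 i - p.2 j) := by
  obtain ⟨x', h1, h2⟩ := corner_flat he hg hi hj hij hj₀ hpos
  rw [← h2]
  exact h.cap x' h1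

lemma capt_of_good (he : Function.Injective e) (hg : Function.Injective g)
    {p : (ι → ℝ) × (κ → ℝ)} (hone : ∀ i j, p.1 i ≠ p.2 j) (hp : Mono e g p) {y : ℝ}
    (hy : Good e g p y) : Capt {1} e g p y := by
  refine ⟨fun m => ⟨dm_of_ne he (hy.A m), dm_of_ne hg (hy.B m)⟩, ?_⟩
  rcases classify he hg hone hp hy with ⟨m, i, j, hij, hm, hi, hj⟩ | h
  · left
    refine ⟨m, 1, rfl, one_pos, ?_, i, j, hi, hj, hij⟩
    rw [Function.iterate_succ_apply']
    have : G e g p ((G e g p)^[m] y) =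
      F e p.1 ((G e g p)^[m] y) - F g p.2 ((G e g p)^[m] y) := rfl
    rw [this, hi.eq, hj.eq, hm, hij]
    ring
  · exact Or.inr h

/-- generic directions with a monotone tropical map are tropically hyperbolic -/
lemma th_of_gen (he : Function.Injective e) (hg : Function.Injective g)
    {p : (ι → ℝ) × (κ → ℝ)} (hp : Mono e g p) (hgen : Gen e g p) : TH {1} e g p := by
  refine ⟨fun x => ?_, fun x hx => ?_⟩
  · rcases dm_or_tw (e := e) hgen.colA x with hA | ⟨i₁, i₂, hA⟩
    · exact Or.inl ⟨hA, dm_or_tw (e := g) hgen.colB x⟩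
    · right
      refine ⟨⟨i₁, i₂, hA⟩, ?_⟩
      rcases dm_or_tw (e := g) hgen.colB x with h | ⟨j₁, j₂, hj⟩
      · exact h
      · exfalso
        apply hgen.brk i₁ i₂ hA.1 j₁ j₂ hj.1
        rw [← xx_eq (fun h => hA.1 (he h)) hA.2.1, ← xx_eq (fun h => hj.1 (hg h)) hj.2.1]
  · rcases dm_or_tw (e := e) hgen.colA x with hA | ⟨i₁, i₂, hA⟩
    · rcases dm_or_tw (e := g) hgen.colB x with hB | ⟨j₁, j₂, hj⟩
      · exact absurd ⟨hA, hB⟩ hx
      · obtain ⟨i, -⟩ := hA
        have h1 := xx_eq (fun h => hj.1 (hg h)) hj.2.1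
        have h2 : x = xp e g (i, j₁) (i, j₂) p := by
          rw [h1]
          unfold xx xp
          simp only
          congr 1 <;> ring
        have := hgen.crit (i, j₁) (i, j₂)
        rw [← h2] at this
        exact capt_of_good he hg hgen.one hp this
    · obtain ⟨j⟩ : Nonempty κ := inferInstance
      have h1 := xx_eq (fun h => hA.1 (he h)) hA.2.1
      have h2 : x = xp e g (i₁, j) (i₂, j) p := by
        rw [h1]
        unfold xx xp
        simp only
        congr 1 <;> ring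
      have := hgen.crit (i₁, j) (i₂, j)
      rw [← h2] at this
      exact capt_of_good he hg hgen.one hp this

end Pool.Agent.K3h81.LD
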