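import Mathlib
import Pool.Agent.W327.RD.Dyn

/-!
# Attracting discs and local injectivity for rational maps of the sphere
-/

set_option autoImplicit false

open Polynomial Filter Topology
open scoped OnePoint

namespace Pool.Agent.K3h81.LD

open Pool.Agent.H762R2.Rt Pool.Agent.H462R2.AP
open Pool.Agent.Helper114.Herman Pool.Agent.Helper114.Konig

/-- the orbit of `c` converges to an attracting fixed point -/
def Sink1 {X : Type*} [TopologicalSpace X] (f : X → X) (c : X) : Prop :=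
  ∃ z : X, f z = z ∧ (∃ U ∈ 𝓝 z, ∀ w ∈ U, Tendsto (fun k : ℕ => f^[k] w) atTop (𝓝 z)) ∧
    Tendsto (fun k : ℕ => f^[k] c) atTop (𝓝 z)

theorem Sink1.shift {X : Type*} [TopologicalSpace X] {f : X → X} {c : X} (m : ℕ)
    (h : Sink1 f (f^[m] c)) : Sink1 f c := by
  obtain ⟨z, h1, h2, h3⟩ := h
  refine ⟨z, h1, h2, ?_⟩
  rw [← tendsto_add_atTop_iff_nat m]
  refine h3.congr fun k => ?_
  rw [Function.iterate_add_apply]

theorem Sink1.sinks {X : Type*} [TopologicalSpace X] {f : X → X} {c : X} (h : Sink1 f c) :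
    Sinks f c := by
  obtain ⟨z, h1, ⟨U, hU, hUt⟩, h3⟩ := h
  exact ⟨z, 1, one_pos, by simpa using h1, ⟨U, hU, fun w hw => by simpa using hUt w hw⟩,
    by simpa using h3⟩

/-- the orbit of `c` converges to an attracting cycle of period `n` -/
def SinkP {X : Type*} [TopologicalSpace X] (n : ℕ) (f : X → X) (c : X) : Prop :=
  ∃ z : X, f^[n] z = z ∧
    (∃ U ∈ 𝓝 z, ∀ w ∈ U, Tendsto (fun k : ℕ => f^[n * k] w) atTop (𝓝 z)) ∧
    Tendsto (fun k : ℕ => f^[n * k] c) atTop (𝓝 z)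

theorem Sink1.sinkP {X : Type*} [TopologicalSpace X] {f : X → X} {c : X} (n : ℕ)
    (h : Sink1 (f^[n]) c) : SinkP n f c := by
  obtain ⟨z, h1, ⟨U, hU, hUt⟩, h3⟩ := h
  refine ⟨z, h1, ⟨U, hU, fun w hw => ?_⟩, ?_⟩
  · refine (hUt w hw).congr fun k => ?_
    rw [Function.iterate_mul]
  · refine h3.congr fun k => ?_
    rw [Function.iterate_mul]

theorem Sink1.sinkP_one {X : Type*} [TopologicalSpace X] {f : X → X} {c : X}
    (h : Sink1 f c) : SinkP 1 f c := by
  apply Sink1.sinkP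
  rw [Function.iterate_one]; exact h

theorem SinkP.image {X : Type*} [TopologicalSpace X] {g : X → X} (hg : Continuous g) {c : X}
    {n : ℕ} (hn : 0 < n) (h : SinkP n g (g c)) : SinkP n g c := by
  obtain ⟨z, hz, ⟨U, hU, hUt⟩, hc⟩ := h
  obtain ⟨m, rfl⟩ : ∃ m, n = m + 1 := ⟨n - 1, by omega⟩
  have hcont : Continuous (g^[m]) := hg.iterate m
  have hgz : g (g^[m] z) = z := by
    rw [← Function.iterate_succ_apply' g m z]; exact hz
  have key : ∀ x : X, Tendsto (fun k : ℕ => g^[(m + 1) * k] (g x)) atTop (𝓝 z) →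
      Tendsto (fun k : ℕ => g^[(m + 1) * k] x) atTop (𝓝 (g^[m] z)) := by
    intro x hx
    rw [← tendsto_add_atTop_iff_nat 1]
    refine ((hcont.tendsto z).comp hx).congr fun k => ?_
    show g^[m] (g^[(m + 1) * k] (g x)) = g^[(m + 1) * (k + 1)] x
    rw [show (m + 1) * (k + 1) = m + ((m + 1) * k + 1) by ring, Function.iterate_add_apply,
      Function.iterate_succ_apply]
  refine ⟨g^[m] z, ?_, ⟨g ⁻¹' U, ?_, fun w hw => key w (hUt _ hw)⟩, key c hc⟩
  · rw [Function.iterate_succ_apply, hgz]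
  · apply hg.continuousAt.preimage_mem_nhds
    rw [hgz]
    exact hU

theorem SinkP.iter {X : Type*} [TopologicalSpace X] {g : X → X} (hg : Continuous g)
    {n : ℕ} (hn : 0 < n) (m : ℕ) {c : X} (h : SinkP n g (g^[m] c)) : SinkP n g c := by
  induction m generalizing c with
  | zero => exact h
  | succ m ih =>
    rw [Function.iterate_succ_apply] at h
    exact (ih h).image hg hn

theorem SinkP.sinks {X : Type*} [TopologicalSpace X] {f : X → X} {c : X} {n : ℕ} (hn : 0 < n)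
    (h : SinkP n f c) : Sinks f c := by
  obtain ⟨z, h1, h2, h3⟩ := h
  exact ⟨z, n, hn, h1, h2, h3⟩

theorem SinkP.sink1 {X : Type*} [TopologicalSpace X] {f : X → X} {c : X}
    (h : SinkP 1 f c) : Sink1 f c := by
  obtain ⟨z, h1, h2, h3⟩ := h
  simp only [one_mul] at h2 h3
  rw [Function.iterate_one] at h1
  exact ⟨z, h1, h2, h3⟩

/-- attracted by a cycle with an allowed period -/
def SinkS {X : Type*} [TopologicalSpace X] (S : Set ℕ) (f : X → X) (c : X) : Prop :=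
  ∃ n ∈ S, 0 < n ∧ SinkP n f c

theorem SinkS.iter {X : Type*} [TopologicalSpace X] {g : X → X} (hg : Continuous g) {S : Set ℕ}
    (m : ℕ) {c : X} (h : SinkS S g (g^[m] c)) : SinkS S g c := by
  obtain ⟨n, h1, h2, h3⟩ := h
  exact ⟨n, h1, h2, h3.iter hg h2 m⟩

theorem disc_sink {X : Type*} [TopologicalSpace X] {f : X → X} {ψ : ℂ → X} {h : ℂ → ℂ} {r : ℝ}
    (hr : 0 < r) (hcont : Continuous ψ) (hopen : IsOpenMap ψ)
    (hconj : ∀ x, ‖x‖ ≤ r → f (ψ x) = ψ (h x)) (hm : ∀ x, ‖x‖ ≤ r → ‖h x‖ < r)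
    (hl : ∀ x y, ‖x‖ ≤ r → ‖y‖ ≤ r → ‖h x - h y‖ ≤ (1 / 2) * ‖x - y‖) {x : ℂ} (hx : ‖x‖ ≤ r) :
    Sink1 f (ψ x) := by
  obtain ⟨p, hpr, hpfix, hpt⟩ := disc_contraction hr (by norm_num) (by norm_num) hm hl
  have hk : ∀ k : ℕ, ∀ y : ℂ, ‖y‖ ≤ r → ‖h^[k] y‖ ≤ r := by
    intro k y hy
    induction k with
    | zero => simpa using hy
    | succ k ih => rw [Function.iterate_succ_apply']; exact (hm _ ih).le
  have hfk : ∀ k : ℕ, ∀ y : ℂ, ‖y‖ ≤ r → f^[k] (ψ y) = ψ (h^[k] y) := by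
    intro k y hy
    induction k with
    | zero => simp
    | succ k ih =>
      rw [Function.iterate_succ_apply', ih, hconj _ (hk k y hy), Function.iterate_succ_apply']
  have hlim : ∀ y : ℂ, ‖y‖ ≤ r → Tendsto (fun k : ℕ => f^[k] (ψ y)) atTop (𝓝 (ψ p)) := by
    intro y hy
    have h1 : Tendsto (fun k : ℕ => ψ (h^[k] y)) atTop (𝓝 (ψ p)) :=
      (hcont.tendsto p).comp (hpt y hy)
    exact h1.congr fun k => (hfk k y hy).symm
  refine ⟨ψ p, ?_, ⟨ψ '' Metric.ball 0 r, ?_, ?_⟩, hlim x hx⟩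
  · rw [hconj p hpr.le, hpfix]
  · exact (hopen _ Metric.isOpen_ball).mem_nhds ⟨p, by simpa using hpr, rfl⟩
  · rintro w ⟨y, hy, rfl⟩
    exact hlim y (by simpa using (Metric.mem_ball.1 hy).le)

/-- an attracting disc in one of the two charts -/
theorem disc_sink_ch {f : OnePoint ℂ → OnePoint ℂ} {φ : ℂ → ℂ} {w₀ : ℂ} {ρ : ℝ} (hρ : 0 < ρ)
    (i : Bool) (hconj : ∀ z, ‖z - w₀‖ ≤ ρ → f (ch i z) = ch i (φ z))
    (hd : ∀ z, ‖z - w₀‖ ≤ ρ → DifferentiableAt ℂ φ z)
    (hb : ∀ z, ‖z - w₀‖ ≤ ρ → ‖φ z - w₀‖ < ρ / 4) {z : ℂ} (hz : ‖z - w₀‖ ≤ ρ / 2) :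
    Sink1 f (ch i z) := by
  have hρc : (ρ : ℂ) ≠ 0 := by exact_mod_cast hρ.ne'
  have hnρ : ‖(ρ : ℂ)‖ = ρ := by rw [Complex.norm_real, Real.norm_eq_abs, abs_of_pos hρ]
  have hin : ∀ y : ℂ, ‖y‖ ≤ 1 → ‖(w₀ + ρ * y) - w₀‖ ≤ ρ := by
    intro y hy
    rw [add_sub_cancel_left, norm_mul, hnρ]
    nlinarith
  have hhb : ∀ y ∈ Metric.closedBall (0 : ℂ) 1, ‖(φ (w₀ + ρ * y) - w₀) / ρ‖ < 1 / 4 := by
    intro y hy
    rw [mem_closedBall_zero_iff] at hy
    rw [norm_div, hnρ, div_lt_iff₀ hρ]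
    have := hb _ (hin y hy)
    linarith
  have hhd : ∀ y ∈ Metric.closedBall (0 : ℂ) 1,
      DifferentiableAt ℂ (fun y : ℂ => (φ (w₀ + ρ * y) - w₀) / ρ) y := by
    intro y hy
    rw [mem_closedBall_zero_iff] at hy
    have hl : DifferentiableAt ℂ (fun y : ℂ => w₀ + (ρ : ℂ) * y) y :=
      (differentiableAt_id.const_mul _).const_add _
    exact (((hd _ (hin y hy)).comp y hl).sub_const _).div_const _
  have key := disc_sink (f := f) (ψ := fun y : ℂ => ch i (w₀ + ρ * y))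
    (h := fun y : ℂ => (φ (w₀ + ρ * y) - w₀) / ρ) (r := 1 / 2) (by norm_num)
    ((continuous_ch i).comp (by fun_prop))
    ((isOpenMap_ch i).comp ((Homeomorph.addLeft w₀).isOpenMap.comp
      (Homeomorph.mulLeft₀ (ρ : ℂ) hρc).isOpenMap))
    (fun x hx => by
      rw [hconj _ (hin x (by linarith))]
      congr 1
      field_simp
      ring)
    (fun x hx => (hhb x (by rw [mem_closedBall_zero_iff]; linarith)).trans (by norm_num))
    (fun x y hx hy => W327.RD.cauchy_lip hhd hhb hx hy)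
    (x := (z - w₀) / ρ) (by
      rw [norm_div, hnρ, div_le_iff₀ hρ]; linarith)
  have e1 : w₀ + (ρ : ℂ) * ((z - w₀) / ρ) = z := by field_simp; ring
  simp only [e1] at key
  exact key

theorem ch_injective (i : Bool) : Function.Injective (ch i) := by
  cases i
  · rw [ch_false]; exact OnePoint.coe_injective
  · rw [ch_true]
    exact sinvHomeo.injective.comp OnePoint.coe_injective

/-- local injectivity from a nonzero derivative in the charts -/
theorem inj_ch {f : OnePoint ℂ → OnePoint ℂ} {φ : ℂ → ℂ} {z₀ φ' : ℂ} (i j : Bool)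
    (hconj : ∀ᶠ z in 𝓝 z₀, f (ch i z) = ch j (φ z)) (hd : HasStrictDerivAt φ φ' z₀)
    (h0 : φ' ≠ 0) : ∃ U ∈ 𝓝 (ch i z₀), Set.InjOn f U := by
  obtain ⟨U, hU, hinj⟩ := injOn_of_deriv hd h0
  refine ⟨ch i '' (U ∩ {z | f (ch i z) = ch j (φ z)}), ?_, ?_⟩
  · exact (isOpenMap_ch i).image_mem_nhds (inter_mem hU hconj)
  · rintro _ ⟨x, ⟨hx, hxQ⟩, rfl⟩ _ ⟨y, ⟨hy, hyQ⟩, rfl⟩ hxy
    rw [Set.mem_ofPred_eq] at hxQ hyQ
    rw [hxQ, hyQ] at hxy
    rw [hinj hx hy (ch_injective j hxy)]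

/-- the map in the charts -/
theorem map_ch {f : OnePoint ℂ → OnePoint ℂ} {P Q : ℂ[X]} (hf : IsRat f P Q) {d : ℕ}
    (hd : d = max P.natDegree Q.natDegree) (hd0 : 0 < d) (w : ℂ) :
    f (ch false w) = pr (P.eval w) (Q.eval w) ∧ f (ch true w) = pr (hom P d 1 w) (hom Q d 1 w) := by
  have hP : P.natDegree ≤ d := hd ▸ le_max_left _ _
  have hQ : Q.natDegree ≤ d := hd ▸ le_max_right _ _
  constructor
  · have e1 : ch false w = pr w 1 := by rw [ch_false, pr_one]
    rw [e1, rat_formula hf hd hd0 (Or.inr one_ne_zero), hom_ne hP one_ne_zero,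
      hom_ne hQ one_ne_zero]
    simp
  · have e1 : ch true w = pr 1 w := by
      simp only [ch_true]
      rw [← pr_one w, sinv_pr (Or.inr one_ne_zero)]
    rw [e1, rat_formula hf hd hd0 (Or.inl one_ne_zero)]

theorem pr_true {u v : ℂ} (hu : u ≠ 0) : pr u v = ch true (v / u) := by
  rw [ch_true]
  simp only
  rw [← pr_ne hu, sinv_pr (Or.inr hu)]

/-- a point of the plane where the Wronskian is not zero is not critical -/
theorem inj_of_wro {f : OnePoint ℂ → OnePoint ℂ} {P Q : ℂ[X]} (hf : IsRat f P Q)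
    (hd0 : 0 < max P.natDegree Q.natDegree) {c : ℂ} (hW : (wro P Q).eval c ≠ 0) :
    ∃ U ∈ 𝓝 (c : OnePoint ℂ), Set.InjOn f U := by
  have e0 : (c : OnePoint ℂ) = ch false c := by rw [ch_false]
  rw [e0]
  have hW' : P.derivative.eval c * Q.eval c - P.eval c * Q.derivative.eval c ≠ 0 := by
    have := hW
    rw [wro, eval_sub, eval_mul, eval_mul] at this
    exact this
  by_cases hQ : Q.eval c = 0
  · have hP : P.eval c ≠ 0 := by
      intro h
      apply hW'
      rw [hQ, h]; ring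
    have hev : ∀ᶠ z in 𝓝 c, P.eval z ≠ 0 := P.continuous.continuousAt.eventually_ne hP
    refine inj_ch false true (φ := fun z => Q.eval z / P.eval z) ?_
      ((Q.hasStrictDerivAt c).fun_div (P.hasStrictDerivAt c) hP) ?_
    · filter_upwards [hev] with z hz
      rw [(map_ch hf rfl hd0 z).1, pr_true hz]
    · apply div_ne_zero _ (pow_ne_zero _ hP)
      intro h
      apply hW'
      linear_combination -h
  · have hev : ∀ᶠ z in 𝓝 c, Q.eval z ≠ 0 := Q.continuous.continuousAt.eventually_ne hQ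
    refine inj_ch false false (φ := fun z => P.eval z / Q.eval z) ?_
      ((P.hasStrictDerivAt c).fun_div (Q.hasStrictDerivAt c) hQ) ?_
    · filter_upwards [hev] with z hz
      rw [(map_ch hf rfl hd0 z).1, pr_ne hz, ch_false]
    · exact div_ne_zero hW' (pow_ne_zero _ hQ)

/-- an attracting disc in the plane -/
theorem sink_plane {f : OnePoint ℂ → OnePoint ℂ} {P Q : ℂ[X]} (hf : IsRat f P Q)
    {w₀ : ℂ} {ρ : ℝ} (hρ : 0 < ρ) (hQ : ∀ z, ‖z - w₀‖ ≤ ρ → Q.eval z ≠ 0)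
    (hb : ∀ z, ‖z - w₀‖ ≤ ρ → ‖P.eval z / Q.eval z - w₀‖ < ρ / 4) {z : ℂ}
    (hz : ‖z - w₀‖ ≤ ρ / 2) : Sink1 f (z : OnePoint ℂ) := by
  have := disc_sink_ch (f := f) (φ := fun z => P.eval z / Q.eval z) hρ false
    (fun z hz => by rw [ch_false]; exact hf.eval z (hQ z hz))
    (fun z hz => P.differentiableAt.fun_div Q.differentiableAt (hQ z hz)) hb hz
  rwa [ch_false] at this

/-- an attracting disc around infinity -/
theorem sink_inf {f : OnePoint ℂ → OnePoint ℂ} {P Q : ℂ[X]} (hf : IsRat f P Q) {d : ℕ}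
    (hd : d = max P.natDegree Q.natDegree) (hd0 : 0 < d) {ρ : ℝ} (hρ : 0 < ρ)
    (hP : ∀ w, ‖w‖ ≤ ρ → hom P d 1 w ≠ 0)
    (hb : ∀ w, ‖w‖ ≤ ρ → ‖hom Q d 1 w / hom P d 1 w‖ < ρ / 4) {w : ℂ} (hw : ‖w‖ ≤ ρ / 2) :
    Sink1 f (ch true w) := by
  have hdiff : ∀ (A : ℂ[X]), Differentiable ℂ (fun w : ℂ => hom A d 1 w) := by
    intro A
    unfold Pool.Agent.Helper114.Herman.hom
    fun_prop
  refine disc_sink_ch (f := f) (φ := fun w => hom Q d 1 w / hom P d 1 w) (w₀ := 0) hρ true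
    (fun z hz => ?_) (fun z hz => ?_) (fun z hz => ?_) (by simpa using hw)
  · rw [sub_zero] at hz
    rw [(map_ch hf hd hd0 z).2, pr_true (hP z hz)]
  · rw [sub_zero] at hz
    exact (hdiff Q z).fun_div (hdiff P z) (hP z hz)
  · rw [sub_zero] at hz ⊢
    exact hb z hz

/-- infinity is not critical if the map is locally `z ↦ a z` there -/
theorem inj_inf {f : OnePoint ℂ → OnePoint ℂ} {P Q : ℂ[X]} (hf : IsRat f P Q) {d : ℕ}
    (hd : d = max P.natDegree Q.natDegree) (hd0 : 0 < d) (hP : P.coeff d ≠ 0)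
    (hQ : Q.coeff d = 0) (hQ1 : Q.coeff (d - 1) ≠ 0) :
    ∃ U ∈ 𝓝 (∞ : OnePoint ℂ), Set.InjOn f U := by
  have e0 : (∞ : OnePoint ℂ) = ch true 0 := by simp [ch, sinv_zero]
  rw [e0]
  have hcp : ∀ A : ℂ[X], ∀ w : ℂ, hom A d 1 w = (cp d A true).eval w := fun A w =>
    (eval_cp_true d A w).symm
  have hP0 : (cp d P true).eval 0 = P.coeff d := eval_cp_true_zero d P
  have hQ0 : (cp d Q true).eval 0 = Q.coeff d := eval_cp_true_zero d Q
  have hPn : (cp d P true).eval 0 ≠ 0 := by rw [hP0]; exact hP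
  have hder : (cp d Q true).derivative.eval 0 = Q.coeff (d - 1) := by
    rw [← coeff_zero_eq_eval_zero, coeff_derivative]
    simp only [zero_add, Nat.cast_zero, mul_one]
    rw [cp]
    simp only [if_true, finsetSum_coeff, coeff_C_mul, coeff_X_pow]
    rw [Finset.sum_eq_single (d - 1)]
    · rw [if_pos (by omega), mul_one]
    · intro k hk hkd
      have := Finset.mem_range.1 hk
      rw [if_neg (by omega), mul_zero]
    · intro h
      exact absurd (Finset.mem_range.2 (by omega)) h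
  have hev : ∀ᶠ z in 𝓝 (0 : ℂ), (cp d P true).eval z ≠ 0 :=
    (cp d P true).continuous.continuousAt.eventually_ne hPn
  refine inj_ch true true (φ := fun z => (cp d Q true).eval z / (cp d P true).eval z) ?_
    (((cp d Q true).hasStrictDerivAt 0).fun_div ((cp d P true).hasStrictDerivAt 0) hPn) ?_
  · filter_upwards [hev] with z hz
    rw [(map_ch hf hd hd0 z).2, hcp, hcp, pr_true hz]
  · apply div_ne_zero _ (pow_ne_zero _ hPn)
    rw [hQ0, hQ, hder, zero_mul, sub_zero]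
    exact mul_ne_zero hQ1 hPn

end Pool.Agent.K3h81.LD
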