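import Mathlib
import Pool.Agent.K3h81.LD.Gen
import Pool.Agent.K3h81.LD.Sph

/-!
# The tropical limit of rational maps
-/

set_option autoImplicit false

open Filter Topology MeasureTheory Polynomial
open scoped OnePoint

set_option linter.unusedSectionVars false

namespace Pool.Agent.K3h81.LD

open Pool.Agent.TH639.LS
open Pool.Agent.Helper114.Herman Pool.Agent.H462R2.AP

section sizes

variable {Ω : Type*} {l : Filter Ω} {t : Ω → ℝ}

lemma sz_inv {u : Ω → ℂ} {a : ℝ} (hu : Sz l t u a) : Sz l t (fun ω => (u ω)⁻¹) (-a) := by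
  refine ⟨by filter_upwards [hu.1] with ω h1 using inv_ne_zero h1, ?_⟩
  refine hu.2.neg.congr fun ω => ?_
  rw [norm_inv, Real.log_inv, neg_div]

lemma sz_div {u w : Ω → ℂ} {a b : ℝ} (hu : Sz l t u a) (hw : Sz l t w b) :
    Sz l t (fun ω => u ω / w ω) (a - b) := by
  simp only [div_eq_mul_inv, sub_eq_add_neg]
  exact hu.mul (sz_inv hw)

lemma sz_congr {u w : Ω → ℂ} {a : ℝ} (hu : Sz l t u a) (h : ∀ᶠ ω in l, u ω = w ω) :
    Sz l t w a := by
  refine ⟨by filter_upwards [hu.1, h] with ω h1 h2; rwa [← h2], hu.2.congr' ?_⟩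
  filter_upwards [h] with ω h2
  rw [h2]

lemma sz_lt (ht : Tendsto t l atTop) {u : Ω → ℂ} {a X : ℝ} (hu : Sz l t u a) (h : a < X) :
    ∀ᶠ ω in l, ‖u ω‖ ≤ Real.exp (t ω * X) / 2 := by
  have h2 : Tendsto (fun ω => Real.log ‖u ω‖ / t ω + Real.log 2 / t ω) l (𝓝 (a + 0)) :=
    hu.2.add (Tendsto.div_atTop tendsto_const_nhds ht)
  have h3 := h2.eventually_lt_const (show a + 0 < X by linarith)
  filter_upwards [hu.1, h3, ht.eventually_gt_atTop 0] with ω h5 h6 h7
  rw [← add_div, div_lt_iff₀ h7] at h6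
  have h8 := Real.exp_le_exp.2 h6.le
  rw [Real.exp_add, Real.exp_log (norm_pos_iff.2 h5), Real.exp_log (by norm_num),
    mul_comm X (t ω)] at h8
  linarith

lemma sum_ratio {I : Type*} [Fintype I] {u : I → Ω → ℂ} {m : I} (hm : ∀ᶠ ω in l, u m ω ≠ 0)
    (hk : ∀ k, k ≠ m → Tendsto (fun ω => u k ω / u m ω) l (𝓝 0)) :
    Tendsto (fun ω => (∑ k, u k ω) / u m ω) l (𝓝 1) := by
  classical
  have h1 : Tendsto (fun ω => ∑ k, u k ω / u m ω) l (𝓝 (∑ k, if k = m then (1 : ℂ) else 0)) := by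
    apply tendsto_finsetSum
    intro k _
    split_ifs with h
    · subst h
      refine tendsto_const_nhds.congr' ?_
      filter_upwards [hm] with ω h1
      rw [div_self h1]
    · exact hk k h
  simp only [Finset.sum_ite_eq', Finset.mem_univ, if_true] at h1
  refine h1.congr fun ω => ?_
  rw [Finset.sum_div]

/-- a linear combination is as large as its dominant term -/
lemma coef_sum (ht : Tendsto t l atTop) {I : Type*} [Fintype I] {x : I → Ω → ℂ} {L : I → ℝ}
    (hx : ∀ k, Sz l t (x k) (L k)) {m : I} {c : I → ℂ} (hc : c m ≠ 0)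
    (hk : ∀ k, k ≠ m → c k = 0 ∨ L k < L m) : Sz l t (fun ω => ∑ k, c k * x k ω) (L m) := by
  refine Sz.sum (u := fun k ω => c k * x k ω) ht ((hx m).const_mul ht hc) fun k hkm => ?_
  rcases hk k hkm with h | h
  · simp only [h, zero_mul, zero_div]
    exact tendsto_const_nhds
  · by_cases hck : c k = 0
    · simp only [hck, zero_mul, zero_div]
      exact tendsto_const_nhds
    · exact ((hx k).const_mul ht hck).ratio ht ((hx m).const_mul ht hc) h

/-- if a combination with different coefficients at the two top terms vanishes, then the sum has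
the size of the top terms -/
lemma two_top [l.NeBot] (ht : Tendsto t l atTop) {I : Type*} [Fintype I] {x : I → Ω → ℂ}
    {L : I → ℝ} (hx : ∀ k, Sz l t (x k) (L k)) {m₁ m₂ : I}
    (hlt : ∀ k, k ≠ m₁ → k ≠ m₂ → L k < L m₁) {n : I → ℂ} (hn : n m₁ ≠ n m₂)
    (hsum : ∀ᶠ ω in l, ∑ k, n k * x k ω = 0) : Sz l t (fun ω => ∑ k, x k ω) (L m₁) := by
  have hn2 : n m₂ ≠ 0 := by
    intro h0
    have hn1 : n m₁ ≠ 0 := by rw [h0] at hn; exact hn
    have := coef_sum ht hx (m := m₁) (c := n) hn1 (fun k hk => by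
      by_cases hk2 : k = m₂
      · left; rw [hk2, h0]
      · right; exact hlt k hk hk2)
    obtain ⟨ω, h1, h2⟩ := (this.1.and hsum).exists
    exact h1 h2
  have h3 := coef_sum ht hx (m := m₁) (c := fun k => n m₂ - n k) (sub_ne_zero.2 (Ne.symm hn))
    (fun k hk => by
      by_cases hk2 : k = m₂
      · left; rw [hk2, sub_self]
      · right; exact hlt k hk hk2)
  have h4 := h3.const_mul ht (inv_ne_zero hn2)
  refine sz_congr h4 ?_
  filter_upwards [hsum] with ω hω
  simp only [sub_mul, Finset.sum_sub_distrib, hω, sub_zero, ← Finset.mul_sum]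
  rw [← mul_assoc, inv_mul_cancel₀ hn2, one_mul]

end sizes

section dyn

variable {Ω ι κ : Type*} [Fintype ι] [Nonempty ι] [Fintype κ] [Nonempty κ] {e : ι → ℕ} {g : κ → ℕ}
  {l : Filter Ω} {t : Ω → ℝ} {a : Ω → ι → ℂ} {b : Ω → κ → ℂ} {p : (ι → ℝ) × (κ → ℝ)} {α : ι → ℝ}

lemma dom_tendsto (ht : Tendsto t l atTop) (ha : ∀ i, Sz l t (fun ω => a ω i) (α i)) {z : Ω → ℂ}
    {y : ℝ} (hz : Sz l t z y) {i : ι} (hi : Dm e α y i) :
    Tendsto (fun ω => (Pol e (a ω)).eval (z ω) / (a ω i * z ω ^ (e i))) l (𝓝 1) := by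
  have hterm : ∀ k, Sz l t (fun ω => a ω k * z ω ^ (e k)) (α k + (e k : ℝ) * y) :=
    fun k => (ha k).mul (hz.pow (e k))
  simp only [Pol_eval]
  exact sum_ratio (u := fun k ω => a ω k * z ω ^ (e k)) (hterm i).1 fun k hk =>
    (hterm k).ratio ht (hterm i) (hi k hk)

lemma dom_size (ht : Tendsto t l atTop) (ha : ∀ i, Sz l t (fun ω => a ω i) (α i)) {z : Ω → ℂ}
    {y : ℝ} (hz : Sz l t z y) {i : ι} (hi : Dm e α y i) :
    Sz l t (fun ω => (Pol e (a ω)).eval (z ω)) (F e α y) := by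
  have hterm : ∀ k, Sz l t (fun ω => a ω k * z ω ^ (e k)) (α k + (e k : ℝ) * y) :=
    fun k => (ha k).mul (hz.pow (e k))
  simp only [Pol_eval]
  rw [hi.eq]
  exact Sz.sum (u := fun k ω => a ω k * z ω ^ (e k)) ht (hterm i) fun k hk =>
    (hterm k).ratio ht (hterm i) (hi k hk)

/-- the rational map in the plane -/
noncomputable def R (e : ι → ℕ) (g : κ → ℕ) (a : ι → ℂ) (b : κ → ℂ) (z : ℂ) : ℂ :=
  (Pol e a).eval z / (Pol g b).eval z

lemma rstep (ht : Tendsto t l atTop) (ha : ∀ i, Sz l t (fun ω => a ω i) (p.1 i))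
    (hb : ∀ j, Sz l t (fun ω => b ω j) (p.2 j)) {z : Ω → ℂ} {y : ℝ} (hz : Sz l t z y)
    (hi : ∃ i, Dm e p.1 y i) (hj : ∃ j, Dm g p.2 y j) :
    Sz l t (fun ω => R e g (a ω) (b ω) (z ω)) (G e g p y) ∧
      ∀ᶠ ω in l, (Pol g (b ω)).eval (z ω) ≠ 0 := by
  obtain ⟨i, hi⟩ := hi
  obtain ⟨j, hj⟩ := hj
  have h1 := dom_size ht ha hz hi
  have h2 := dom_size ht hb hz hj
  exact ⟨sz_div h1 h2, h2.1⟩

lemma rorbit (ht : Tendsto t l atTop) (ha : ∀ i, Sz l t (fun ω => a ω i) (p.1 i))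
    (hb : ∀ j, Sz l t (fun ω => b ω j) (p.2 j)) {z : Ω → ℂ} {y : ℝ} (hz : Sz l t z y)
    (hy : ∀ m : ℕ, Reg e g p ((G e g p)^[m] y)) (m : ℕ) :
    Sz l t (fun ω => (R e g (a ω) (b ω))^[m] (z ω)) ((G e g p)^[m] y) ∧
      ∀ᶠ ω in l, ∀ k < m, (Pol g (b ω)).eval ((R e g (a ω) (b ω))^[k] (z ω)) ≠ 0 := by
  induction m with
  | zero => exact ⟨by simpa using hz, Eventually.of_forall fun ω k hk => absurd hk (by omega)⟩
  | succ m ih =>
    obtain ⟨h1, h2⟩ := ih
    have h3 := rstep ht ha hb h1 (hy m).1 (hy m).2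
    refine ⟨?_, ?_⟩
    · simp only [Function.iterate_succ_apply']
      exact h3.1
    · filter_upwards [h2, h3.2] with ω h4 h5 k hk
      rcases Nat.lt_succ_iff_lt_or_eq.1 hk with h | h
      · exact h4 k h
      · rw [h]; exact h5

lemma iter_eq {a : ι → ℂ} {b : κ → ℂ} {f : OnePoint ℂ → OnePoint ℂ}
    (hf : IsRat f (Pol e a) (Pol g b)) {m : ℕ} {z : ℂ}
    (h : ∀ k < m, (Pol g b).eval ((R e g a b)^[k] z) ≠ 0) :
    f^[m] (z : OnePoint ℂ) = (((R e g a b)^[m] z : ℂ) : OnePoint ℂ) := by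
  induction m with
  | zero => rfl
  | succ m ih =>
    rw [Function.iterate_succ_apply', ih (fun k hk => h k (by omega)),
      hf.eval _ (h m (by omega)), Function.iterate_succ_apply']
    rfl

lemma iter_diff {a : ι → ℂ} {b : κ → ℂ} {m : ℕ} {z : ℂ}
    (h : ∀ k < m, (Pol g b).eval ((R e g a b)^[k] z) ≠ 0) :
    DifferentiableAt ℂ ((R e g a b)^[m]) z := by
  induction m with
  | zero => simpa using differentiableAt_id
  | succ m ih =>
    rw [Function.iterate_succ']
    refine DifferentiableAt.comp z ?_ (ih (fun k hk => h k (by omega)))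
    unfold R
    exact (Pol e a).differentiableAt.fun_div (Pol g b).differentiableAt (h m (by omega))

/-- the values near a flat piece -/
lemma flat_ratio (ht : Tendsto t l atTop) (ha : ∀ i, Sz l t (fun ω => a ω i) (p.1 i))
    (hb : ∀ j, Sz l t (fun ω => b ω j) (p.2 j)) {i : ι} {j : κ} (hij : e i = g j) {z : Ω → ℂ}
    {y : ℝ} (hz : Sz l t z y) (hi : Dm e p.1 y i) (hj : Dm g p.2 y j) :
    Tendsto (fun ω => R e g (a ω) (b ω) (z ω) / (a ω i / b ω j)) l (𝓝 1) ∧
      ∀ᶠ ω in l, (Pol g (b ω)).eval (z ω) ≠ 0 := by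
  have h1 := dom_tendsto ht ha hz hi
  have h2 := dom_tendsto ht hb hz hj
  have h3 := h1.div h2 one_ne_zero
  rw [div_one] at h3
  refine ⟨h3.congr' ?_, (dom_size ht hb hz hj).1⟩
  filter_upwards [hz.1, (ha i).1, (hb j).1] with ω h4 h5 h6
  unfold R
  simp only [Pi.div_apply]
  rw [hij]
  have h7 : z ω ^ g j ≠ 0 := pow_ne_zero _ h4
  by_cases h8 : (Pol g (b ω)).eval (z ω) = 0
  · rw [h8]; simp
  · field_simp

/-- the disc around the value of a flat piece of a cycle -/
lemma cyc_disc (ht : Tendsto t l atTop) (ha : ∀ i, Sz l t (fun ω => a ω i) (p.1 i))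
    (hb : ∀ j, Sz l t (fun ω => b ω j) (p.2 j)) {y : ℝ}
    (hy : ∀ m : ℕ, Reg e g p ((G e g p)^[m] y)) {i : ι} {j : κ} (hij : e i = g j)
    (hi : Dm e p.1 y i) (hj : Dm g p.2 y j) {n : ℕ} (hper : (G e g p)^[n + 1] y = y) :
    ∀ᶠ ω in l, ∀ z : ℂ, ‖z - a ω i / b ω j‖ ≤ ‖a ω i / b ω j‖ / 2 →
      (∀ k < n + 1, (Pol g (b ω)).eval ((R e g (a ω) (b ω))^[k] z) ≠ 0) ∧
        ‖(R e g (a ω) (b ω))^[n + 1] z - a ω i / b ω j‖ < ‖a ω i / b ω j‖ / 8 := by
  have hGy : G e g p y = p.1 i - p.2 j := by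
    unfold G
    rw [hi.eq, hj.eq, hij]; ring
  have hw : Sz l t (fun ω => a ω i / b ω j) (p.1 i - p.2 j) := sz_div (ha i) (hb j)
  set l' : Filter (Ω × ℂ) := comap Prod.fst l ⊓
    𝓟 {q | ‖q.2 - a q.1 i / b q.1 j‖ ≤ ‖a q.1 i / b q.1 j‖ / 2} with hl'
  have hmap : Tendsto Prod.fst l' l := tendsto_comap.mono_left inf_le_left
  have hin : ∀ᶠ q in l', ‖q.2 - a q.1 i / b q.1 j‖ ≤ ‖a q.1 i / b q.1 j‖ / 2 := by
    have : {q : Ω × ℂ | ‖q.2 - a q.1 i / b q.1 j‖ ≤ ‖a q.1 i / b q.1 j‖ / 2} ∈ l' :=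
      mem_inf_of_right (mem_principal_self _)
    exact this
  have key : ∀ᶠ q in l', (∀ k < n + 1, (Pol g (b q.1)).eval
      ((R e g (a q.1) (b q.1))^[k] q.2) ≠ 0) ∧
      ‖(R e g (a q.1) (b q.1))^[n + 1] q.2 - a q.1 i / b q.1 j‖ < ‖a q.1 i / b q.1 j‖ / 8 := by
    have ht' : Tendsto (fun q : Ω × ℂ => t q.1) l' atTop := ht.comp hmap
    have ha' : ∀ i, Sz l' (fun q : Ω × ℂ => t q.1) (fun q => a q.1 i) (p.1 i) := fun i =>
      ⟨hmap.eventually (ha i).1, (ha i).2.comp hmap⟩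
    have hb' : ∀ j, Sz l' (fun q : Ω × ℂ => t q.1) (fun q => b q.1 j) (p.2 j) := fun j =>
      ⟨hmap.eventually (hb j).1, (hb j).2.comp hmap⟩
    have hw' : Sz l' (fun q : Ω × ℂ => t q.1) (fun q => a q.1 i / b q.1 j) (p.1 i - p.2 j) :=
      ⟨hmap.eventually hw.1, hw.2.comp hmap⟩
    have hz0 : ∀ᶠ q in l', ‖a q.1 i / b q.1 j‖ / 2 ≤ ‖q.2‖ ∧
        ‖q.2‖ ≤ 2 * ‖a q.1 i / b q.1 j‖ := by
      filter_upwards [hin] with q hq
      have h1 := norm_sub_norm_le (a q.1 i / b q.1 j) q.2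
      rw [norm_sub_rev] at h1
      have h2 := norm_sub_norm_le q.2 (a q.1 i / b q.1 j)
      have h3 := norm_nonneg (a q.1 i / b q.1 j)
      constructor <;> linarith
    have hz : Sz l' (fun q : Ω × ℂ => t q.1) (fun q => q.2) (p.1 i - p.2 j) := by
      refine ⟨?_, ?_⟩
      · filter_upwards [hz0, hw'.1] with q h1 h2
        have := norm_pos_iff.2 h2
        exact norm_pos_iff.1 (by linarith [h1.1])
      · have hc1 : Tendsto (fun q : Ω × ℂ => Real.log ‖a q.1 i / b q.1 j‖ / t q.1 -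
            Real.log 2 / t q.1) l' (𝓝 (p.1 i - p.2 j)) := by
          have := hw'.2.sub (Tendsto.div_atTop (tendsto_const_nhds (x := Real.log 2)) ht')
          rwa [sub_zero] at this
        have hc2 : Tendsto (fun q : Ω × ℂ => Real.log ‖a q.1 i / b q.1 j‖ / t q.1 +
            Real.log 2 / t q.1) l' (𝓝 (p.1 i - p.2 j)) := by
          have := hw'.2.add (Tendsto.div_atTop (tendsto_const_nhds (x := Real.log 2)) ht')
          rwa [add_zero] at this
        refine tendsto_of_tendsto_of_tendsto_of_le_of_le' hc1 hc2 ?_ ?_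
        · filter_upwards [hz0, hw'.1, ht'.eventually_gt_atTop 0] with q h1 h2 h3
          have h4 := norm_pos_iff.2 h2
          rw [← sub_div]
          apply div_le_div_of_nonneg_right _ h3.le
          rw [← Real.log_div h4.ne' (by norm_num)]
          exact Real.log_le_log (by positivity) h1.1
        · filter_upwards [hz0, hw'.1, ht'.eventually_gt_atTop 0] with q h1 h2 h3
          have h4 := norm_pos_iff.2 h2
          rw [← add_div]
          apply div_le_div_of_nonneg_right _ h3.le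
          rw [← Real.log_mul h4.ne' (by norm_num), mul_comm]
          exact Real.log_le_log (by linarith [h1.1]) h1.2
    have hreg : ∀ m : ℕ, Reg e g p ((G e g p)^[m] (p.1 i - p.2 j)) := by
      intro m
      rw [← hGy, ← Function.iterate_succ_apply]
      exact hy (m + 1)
    have hsz := rorbit ht' ha' hb' hz hreg n
    have hyn : (G e g p)^[n] (p.1 i - p.2 j) = y := by
      rw [← hGy, ← Function.iterate_succ_apply]; exact hper
    rw [hyn] at hsz
    obtain ⟨h1, h2⟩ := flat_ratio ht' ha' hb' hij hsz.1 hi hj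
    have h3 : ∀ᶠ q in l', ‖R e g (a q.1) (b q.1) ((R e g (a q.1) (b q.1))^[n] q.2) /
        (a q.1 i / b q.1 j) - 1‖ < 1 / 8 := by
      have := (tendsto_iff_norm_sub_tendsto_zero.1 h1).eventually_lt_const
        (show (0 : ℝ) < 1 / 8 by norm_num)
      exact this
    filter_upwards [h2, hsz.2, h3, hw'.1] with q h4 h4' h5 h6
    refine ⟨fun k hk => ?_, ?_⟩
    · rcases Nat.lt_succ_iff_lt_or_eq.1 hk with h | h
      · exact h4' k h
      · rw [h]; exact h4
    have h7 := norm_pos_iff.2 h6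
    rw [Function.iterate_succ_apply']
    have e1 : R e g (a q.1) (b q.1) ((R e g (a q.1) (b q.1))^[n] q.2) - a q.1 i / b q.1 j =
        (R e g (a q.1) (b q.1) ((R e g (a q.1) (b q.1))^[n] q.2) / (a q.1 i / b q.1 j) - 1) *
          (a q.1 i / b q.1 j) := by
      rw [sub_mul, div_mul_cancel₀ _ h6, one_mul]
    rw [e1, norm_mul]
    nlinarith
  rw [hl', eventually_inf_principal, eventually_comap] at key
  filter_upwards [key] with ω hω z hz
  exact hω (ω, z) rfl hz

/-- small sums on discs -/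
lemma small (ht : Tendsto t l atTop) (ha : ∀ i, Sz l t (fun ω => a ω i) (α i)) {X c : ℝ}
    (s : Finset ι) (hX : ∀ i ∈ s, α i + (e i : ℝ) * X < c) {ε : ℝ} (hε : 0 < ε) :
    ∀ᶠ ω in l, ∀ w : ℂ, ‖w‖ ≤ Real.exp (t ω * X) →
      ‖∑ i ∈ s, a ω i * w ^ (e i)‖ ≤ ε * Real.exp (t ω * c) := by
  classical
  have hN : (0 : ℝ) < Fintype.card ι := by exact_mod_cast Fintype.card_pos
  have h1 : ∀ i, ∀ᶠ ω in l, i ∈ s → ‖a ω i‖ * Real.exp (t ω * X) ^ (e i) ≤
      ε / Fintype.card ι * Real.exp (t ω * c) := by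
    intro i
    by_cases his : i ∈ s
    swap
    · exact Eventually.of_forall fun ω h => absurd h his
    have hF := hX i his
    have h2 : Tendsto (fun ω => Real.log ‖a ω i‖ / t ω + (e i : ℝ) * X -
        Real.log (ε / Fintype.card ι) / t ω) l (𝓝 (α i + (e i : ℝ) * X - 0)) :=
      ((ha i).2.add_const _).sub (Tendsto.div_atTop tendsto_const_nhds ht)
    have h3 := h2.eventually_lt_const (show α i + (e i : ℝ) * X - 0 < c by linarith)
    filter_upwards [h3, (ha i).1, ht.eventually_gt_atTop 0] with ω h4 h5 h6 _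
    have h7 : Real.log ‖a ω i‖ + (e i : ℝ) * (t ω * X) ≤
        Real.log (ε / Fintype.card ι) + t ω * c := by
      have e1 : Real.log ‖a ω i‖ + (e i : ℝ) * (t ω * X) - Real.log (ε / Fintype.card ι) =
        (Real.log ‖a ω i‖ / t ω + (e i : ℝ) * X - Real.log (ε / Fintype.card ι) / t ω) * t ω := by
        field_simp
      have e2 := mul_le_mul_of_nonneg_right h4.le h6.le
      rw [← e1, mul_comm c (t ω)] at e2
      linarith
    have h8 := Real.exp_le_exp.2 h7
    rw [Real.exp_add, Real.exp_add, Real.exp_log (norm_pos_iff.2 h5),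
      Real.exp_log (div_pos hε hN), Real.exp_nat_mul] at h8
    exact h8
  have h2 := (Filter.eventually_all).2 h1
  filter_upwards [h2] with ω h3 w hw
  calc ‖∑ i ∈ s, a ω i * w ^ (e i)‖ ≤ ∑ i ∈ s, ‖a ω i * w ^ (e i)‖ := norm_sum_le _ _
    _ ≤ ∑ _i ∈ s, ε / Fintype.card ι * Real.exp (t ω * c) := by
        refine Finset.sum_le_sum fun i hi => ?_
        rw [norm_mul, norm_pow]
        refine le_trans ?_ (h3 i hi)
        gcongr
    _ ≤ ∑ _i : ι, ε / Fintype.card ι * Real.exp (t ω * c) := by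
        apply Finset.sum_le_sum_of_subset_of_nonneg (Finset.subset_univ _)
        intro i _ _
        positivity
    _ = ε * Real.exp (t ω * c) := by
        rw [Finset.sum_const, Finset.card_univ, nsmul_eq_mul]
        field_simp

/-- a trapping disc around zero -/
lemma trap0 (ht : Tendsto t l atTop) (ha : ∀ i, Sz l t (fun ω => a ω i) (p.1 i))
    (hb : ∀ j, Sz l t (fun ω => b ω j) (p.2 j)) {j : κ} (hj0 : g j = 0) {X : ℝ}
    (hj : Dm g p.2 X j) (hX : G e g p X < X) :
    ∀ᶠ ω in l, ∀ z : ℂ, ‖z‖ ≤ Real.exp (t ω * X) → (Pol g (b ω)).eval z ≠ 0 ∧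
      ‖(Pol e (a ω)).eval z / (Pol g (b ω)).eval z‖ < Real.exp (t ω * X) / 4 := by
  classical
  have hB : F g p.2 X = p.2 j := by rw [hj.eq, hj0]; simp
  have hdiv : ∀ i, Sz l t (fun ω => a ω i / b ω j) (p.1 i - p.2 j) := fun i => sz_div (ha i) (hb j)
  have hdivb : ∀ k, Sz l t (fun ω => b ω k / b ω j) (p.2 k - p.2 j) := fun k =>
    sz_div (hb k) (hb j)
  have h1 := small (e := e) (a := fun ω i => a ω i / b ω j) (α := fun i => p.1 i - p.2 j) ht hdiv
    (X := X) (c := X) Finset.univ (fun i _ => by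
      have h2 := le_F (e := e) p.1 X i
      unfold G at hX
      rw [hB] at hX
      linarith) (ε := 1 / 16) (by norm_num)
  have h2 := small (e := g) (a := fun ω k => b ω k / b ω j) (α := fun k => p.2 k - p.2 j) ht hdivb
    (X := X) (c := 0) (Finset.univ.erase j) (fun k hk => by
      have h3 := hj k (Finset.ne_of_mem_erase hk)
      rw [hj0] at h3
      simp only [Nat.cast_zero, zero_mul, add_zero] at h3
      linarith) (ε := 1 / 4) (by norm_num)
  filter_upwards [h1, h2, (hb j).1] with ω h3 h4 h5 z hz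
  have h6 := h3 z hz
  have h7 := h4 z hz
  have hQ : (Pol g (b ω)).eval z = b ω j * (1 + ∑ k ∈ Finset.univ.erase j,
      b ω k / b ω j * z ^ (g k)) := by
    rw [Pol_eval, ← Finset.add_sum_erase _ _ (Finset.mem_univ j), hj0, pow_zero, mul_one, mul_add,
      mul_one, Finset.mul_sum]
    congr 1
    refine Finset.sum_congr rfl fun k _ => ?_
    field_simp
  have hP : (Pol e (a ω)).eval z = b ω j * ∑ i, a ω i / b ω j * z ^ (e i) := by
    rw [Pol_eval, Finset.mul_sum]
    refine Finset.sum_congr rfl fun k _ => ?_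
    field_simp
  obtain ⟨S, hS⟩ : ∃ S, S = ∑ k ∈ Finset.univ.erase j, b ω k / b ω j * z ^ (g k) := ⟨_, rfl⟩
  rw [← hS] at hQ h7
  rw [mul_zero, Real.exp_zero, mul_one] at h7
  have h8 : 3 / 4 ≤ ‖1 + S‖ := by
    have := norm_sub_norm_le (1 : ℂ) (-S)
    rw [norm_neg, sub_neg_eq_add, norm_one] at this
    linarith
  have h9 : 1 + S ≠ 0 := norm_pos_iff.1 (by linarith)
  refine ⟨by rw [hQ]; exact mul_ne_zero h5 h9, ?_⟩
  rw [hP, hQ, mul_div_mul_left _ _ h5, norm_div, div_lt_iff₀ (by linarith)]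
  have hE := Real.exp_pos (t ω * X)
  nlinarith

lemma natDegree_Pol {a : ι → ℂ} (he : Function.Injective e) {i : ι} (hi : ∀ k, e k ≤ e i)
    (hai : a i ≠ 0) : (Pol e a).natDegree = e i := by
  apply le_antisymm
  · unfold Pol
    apply natDegree_sum_le_of_forall_le
    intro k _
    exact (natDegree_C_mul_X_pow_le _ _).trans (hi k)
  · apply le_natDegree_of_ne_zero
    unfold Pol
    rw [finsetSum_coeff, Finset.sum_eq_single i]
    · rw [coeff_C_mul_X_pow, if_pos rfl]; exact hai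
    · intro k _ hk
      rw [coeff_C_mul_X_pow, if_neg]
      intro h
      exact hk (he h.symm)
    · intro h; exact absurd (Finset.mem_univ _) h

lemma natDegree_Pol_le {a : ι → ℂ} {d : ℕ} (hi : ∀ k, e k ≤ d) : (Pol e a).natDegree ≤ d := by
  unfold Pol
  apply natDegree_sum_le_of_forall_le
  intro k _
  exact (natDegree_C_mul_X_pow_le _ _).trans (hi k)

lemma coeff_Pol {a : ι → ℂ} (he : Function.Injective e) (i : ι) : (Pol e a).coeff (e i) = a i := by
  unfold Pol
  rw [finsetSum_coeff, Finset.sum_eq_single i]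
  · rw [coeff_C_mul_X_pow, if_pos rfl]
  · intro k _ hk
    rw [coeff_C_mul_X_pow, if_neg]
    intro h
    exact hk (he h.symm)
  · intro h; exact absurd (Finset.mem_univ _) h

lemma coeff_Pol_zero {a : ι → ℂ} {n : ℕ} (h : ∀ i, e i ≠ n) : (Pol e a).coeff n = 0 := by
  unfold Pol
  rw [finsetSum_coeff]
  refine Finset.sum_eq_zero fun k _ => ?_
  rw [coeff_C_mul_X_pow, if_neg (fun h' => h k h'.symm)]

/-- the polynomial in the chart at infinity -/
lemma hom_Pol {a : ι → ℂ} {d : ℕ} (hi : ∀ k, e k ≤ d) (w : ℂ) :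
    hom (Pol e a) d 1 w = (Pol (fun i => d - e i) a).eval w := by
  have h1 : ∀ (A B : ℂ[X]), hom (A + B) d 1 w = hom A d 1 w + hom B d 1 w := by
    intro A B
    unfold Pool.Agent.Helper114.Herman.hom
    rw [← Finset.sum_add_distrib]
    refine Finset.sum_congr rfl fun k _ => ?_
    rw [coeff_add]; ring
  have h0 : hom (0 : ℂ[X]) d 1 w = 0 := by
    unfold Pool.Agent.Helper114.Herman.hom
    simp
  have h2 : ∀ s : Finset ι, hom (∑ i ∈ s, C (a i) * X ^ (e i)) d 1 w =
      ∑ i ∈ s, a i * w ^ (d - e i) := by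
    classical
    intro s
    induction s using Finset.induction_on with
    | empty => simpa using h0
    | insert i s his ih =>
      rw [Finset.sum_insert his, Finset.sum_insert his, h1, ih]
      congr 1
      unfold Pool.Agent.Helper114.Herman.hom
      rw [Finset.sum_eq_single (e i)]
      · rw [coeff_C_mul_X_pow, if_pos rfl]; simp
      · intro k _ hk
        rw [coeff_C_mul_X_pow, if_neg hk]; simp
      · intro h
        exact absurd (Finset.mem_range.2 (Nat.lt_succ_of_le (hi i))) h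
  rw [Pol_eval]
  exact h2 Finset.univ

lemma F_rev {d : ℕ} (hi : ∀ k, e k ≤ d) (x : ℝ) :
    F (fun i => d - e i) α (-x) = F e α x - d * x := by
  apply le_antisymm
  · refine F_le fun k => ?_
    have := le_F (e := e) α x k
    rw [Nat.cast_sub (hi k)]
    linarith
  · obtain ⟨i, h⟩ := exists_eq_F (e := e) α x
    have h2 := le_F (e := fun i => d - e i) α (-x) i
    rw [Nat.cast_sub (hi i)] at h2
    rw [h]
    linarith

/-- a trapping disc around infinity -/
lemma trapInf (ht : Tendsto t l atTop) (ha : ∀ i, Sz l t (fun ω => a ω i) (p.1 i))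
    (hb : ∀ j, Sz l t (fun ω => b ω j) (p.2 j)) {i : ι} (hi : ∀ k, e k ≤ e i)
    (hgi : ∀ k, g k ≤ e i) {X : ℝ} (hiX : Dm e p.1 X i) (hX : X < G e g p X) :
    ∀ᶠ ω in l, ∀ w : ℂ, ‖w‖ ≤ Real.exp (t ω * (-X)) → hom (Pol e (a ω)) (e i) 1 w ≠ 0 ∧
      ‖hom (Pol g (b ω)) (e i) 1 w / hom (Pol e (a ω)) (e i) 1 w‖ <
        Real.exp (t ω * (-X)) / 4 := by
  have := trap0 (e := fun j => e i - g j) (g := fun k => e i - e k) (p := (p.2, p.1))
    (a := b) (b := a) ht hb ha (j := i) (by simp) (X := -X) ?_ ?_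
  · simp only [hom_Pol hi, hom_Pol hgi]
    exact this
  · intro k hk
    have := hiX k hk
    simp only
    rw [Nat.cast_sub (hi k), Nat.cast_sub (le_refl _)]
    linarith
  · unfold G
    simp only
    rw [F_rev hgi, F_rev hi]
    unfold G at hX
    linarith

/-- the fate of a point whose logarithmic size is captured -/
lemma fate (ht : Tendsto t l atTop) (ha : ∀ i, Sz l t (fun ω => a ω i) (p.1 i))
    (hb : ∀ j, Sz l t (fun ω => b ω j) (p.2 j)) (he : Function.Injective e)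
    (hg : Function.Injective g) {S : Set ℕ} (hS : 1 ∈ S) {z : Ω → ℂ} {y : ℝ}
    (hz : Sz l t z y) (hy : Capt S e g p y) {j₀ : κ} (hj₀ : g j₀ = 0) {i₁ : ι}
    (hi₁ : ∀ k, e k ≤ e i₁) (hgi : ∀ k, g k ≤ e i₁) (hpos : 0 < e i₁) :
    ∀ᶠ ω in l, ∀ f, IsRat f (Pol e (a ω)) (Pol g (b ω)) →
      SinkS S f ((z ω : ℂ) : OnePoint ℂ) := by
  rcases hy.fate with ⟨m, n, hnS, hn, hper, i, j, hi, hj, hij⟩ | h | h
  · -- a flat cycle
    obtain ⟨n, rfl⟩ : ∃ n', n = n' + 1 := ⟨n - 1, by omega⟩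
    have hy' : ∀ k : ℕ, Reg e g p ((G e g p)^[k] ((G e g p)^[m] y)) := by
      intro k
      rw [← Function.iterate_add_apply]
      exact hy.reg (k + m)
    have hper' : (G e g p)^[n + 1] ((G e g p)^[m] y) = (G e g p)^[m] y := by
      rw [← Function.iterate_add_apply, add_comm]; exact hper
    have h1 := cyc_disc ht ha hb hy' hij hi hj hper'
    have h2 := rorbit ht ha hb hz hy.reg m
    have h3 := flat_ratio ht ha hb hij h2.1 hi hj
    have h4 := rorbit ht ha hb hz hy.reg (m + 1)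
    have h5 := (tendsto_iff_norm_sub_tendsto_zero.1 h3.1).eventually_lt_const
      (show (0 : ℝ) < 1 / 4 by norm_num)
    filter_upwards [h1, h4.2, h5, (ha i).1, (hb j).1] with ω k1 k2 k3 k4 k5 f hf
    have hw0 : a ω i / b ω j ≠ 0 := div_ne_zero k4 k5
    have hwn := norm_pos_iff.2 hw0
    apply SinkS.iter hf.cont (m + 1)
    rw [iter_eq hf k2]
    refine ⟨n + 1, hnS, hn, ?_⟩
    apply Sink1.sinkP
    have key := disc_sink_ch (f := f^[n + 1]) (φ := (R e g (a ω) (b ω))^[n + 1])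
      (w₀ := a ω i / b ω j) (ρ := ‖a ω i / b ω j‖ / 2) (by positivity) false
      (fun z hz => by
        rw [ch_false]
        exact iter_eq hf (k1 z hz).1)
      (fun z hz => iter_diff (k1 z hz).1)
      (fun z hz => by
        have := (k1 z hz).2
        linarith)
      (z := (R e g (a ω) (b ω))^[m + 1] (z ω)) (by
        rw [Function.iterate_succ_apply']
        have e1 : R e g (a ω) (b ω) ((R e g (a ω) (b ω))^[m] (z ω)) - a ω i / b ω j =
          (R e g (a ω) (b ω) ((R e g (a ω) (b ω))^[m] (z ω)) / (a ω i / b ω j) - 1) *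
            (a ω i / b ω j) := by
          rw [sub_mul, div_mul_cancel₀ _ hw0, one_mul]
        rw [e1, norm_mul]
        nlinarith)
    rw [ch_false] at key
    exact key
  · -- escape to infinity
    have hdom := h.eventually (dm_top (e := e) (α := p.1) (i := i₁) (fun k hk =>
      lt_of_le_of_ne (hi₁ k) (fun h => hk (he h))))
    obtain ⟨N, hN⟩ := eventually_atTop.1 hdom
    have hex : ∃ m, N ≤ m ∧ (G e g p)^[m] y < (G e g p)^[m + 1] y := by
      by_contra hcon
      push Not at hcon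
      have hle : ∀ k, (G e g p)^[N + k] y ≤ (G e g p)^[N] y := by
        intro k
        induction k with
        | zero => simp
        | succ k ih => exact (hcon (N + k) (by omega)).trans ih
      obtain ⟨k, hk1, hk2⟩ := ((h.eventually_gt_atTop ((G e g p)^[N] y)).and
        (eventually_ge_atTop N)).exists
      have := hle (k - N)
      rw [Nat.add_sub_cancel' hk2] at this
      linarith
    obtain ⟨m, hmN, hm⟩ := hex
    have hX := hm
    rw [Function.iterate_succ_apply'] at hX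
    have h1 := trapInf (g := g) ht ha hb hi₁ hgi (hN m hmN) hX
    have h2 := rorbit ht ha hb hz hy.reg (m + 1)
    have h3 := sz_lt ht (sz_inv h2.1) (neg_lt_neg hm)
    filter_upwards [h1, h2.2, h3, (ha i₁).1, h2.1.1] with ω k1 k2 k3 k4 k5 f hf
    apply SinkS.iter hf.cont (m + 1)
    rw [iter_eq hf k2]
    have hdeg : e i₁ = max (Pol e (a ω)).natDegree (Pol g (b ω)).natDegree := by
      rw [natDegree_Pol he hi₁ k4, max_eq_left (natDegree_Pol_le hgi)]
    have e1 : ch true ((R e g (a ω) (b ω))^[m + 1] (z ω))⁻¹ =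
        (((R e g (a ω) (b ω))^[m + 1] (z ω) : ℂ) : OnePoint ℂ) := by
      rw [ch_true]
      simp only
      rw [sinv_coe (inv_ne_zero k5), inv_inv]
    rw [← e1]
    exact ⟨1, hS, one_pos, (sink_inf hf hdeg hpos (Real.exp_pos _) (fun w hw => (k1 w hw).1)
      (fun w hw => (k1 w hw).2) k3).sinkP_one⟩
  · -- escape to zero
    have hdom := h.eventually (dm_bot (e := g) (α := p.2) (i := j₀) (fun k hk => by
      rw [hj₀, Nat.pos_iff_ne_zero]
      intro h0
      exact hk (hg (by rw [h0, hj₀]))))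
    obtain ⟨N, hN⟩ := eventually_atTop.1 hdom
    have hex : ∃ m, N ≤ m ∧ (G e g p)^[m + 1] y < (G e g p)^[m] y := by
      by_contra hcon
      push Not at hcon
      have hle : ∀ k, (G e g p)^[N] y ≤ (G e g p)^[N + k] y := by
        intro k
        induction k with
        | zero => simp
        | succ k ih => exact ih.trans (hcon (N + k) (by omega))
      obtain ⟨k, hk1, hk2⟩ := ((h.eventually_lt_atBot ((G e g p)^[N] y)).and
        (eventually_ge_atTop N)).exists
      have := hle (k - N)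
      rw [Nat.add_sub_cancel' hk2] at this
      linarith
    obtain ⟨m, hmN, hm⟩ := hex
    have hX := hm
    rw [Function.iterate_succ_apply'] at hX
    have h1 := trap0 ht ha hb hj₀ (hN m hmN) hX
    have h2 := rorbit ht ha hb hz hy.reg (m + 1)
    have h3 := sz_lt ht h2.1 hm
    filter_upwards [h1, h2.2, h3] with ω k1 k2 k3 f hf
    apply SinkS.iter hf.cont (m + 1)
    rw [iter_eq hf k2]
    refine ⟨1, hS, one_pos, Sink1.sinkP_one ?_⟩
    refine sink_plane hf (w₀ := 0) (Real.exp_pos (t ω * (G e g p)^[m] y)) (fun z hz => ?_)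
      (fun z hz => ?_) (by rw [sub_zero]; exact k3)
    · rw [sub_zero] at hz; exact (k1 z hz).1
    · rw [sub_zero] at hz ⊢; exact (k1 z hz).2

end dyn

end Pool.Agent.K3h81.LD
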