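import Mathlib
import Pool.Agent.K3h81.LD.Lim

/-!
# The critical values of a rational map in a tropically hyperbolic direction
-/

set_option autoImplicit false

open Filter Topology MeasureTheory Polynomial
open scoped OnePoint

set_option linter.unusedSectionVars false

namespace Pool.Agent.K3h81.LD

open Pool.Agent.TH639.LS
open Pool.Agent.Helper114.Herman Pool.Agent.H462R2.AP
open Pool.Agent.H762R2.Rt (wro)

section sizes

variable {Ω : Type*} {l : Filter Ω} {t : Ω → ℝ}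

lemma sz_of_tendsto (ht : Tendsto t l atTop) {v : Ω → ℂ} {c : ℂ} (hc : c ≠ 0)
    (h : Tendsto v l (𝓝 c)) : Sz l t v 0 := by
  refine ⟨h.eventually_ne hc, ?_⟩
  exact Tendsto.div_atTop ((h.norm).log (norm_ne_zero_iff.2 hc)) ht

/-- the ratio of two terms at a point of extreme size -/
lemma ratio_far (ht : Tendsto t l atTop) {u w c : Ω → ℂ} {A B : ℝ} (hu : Sz l t u A)
    (hw : Sz l t w B) (hc0 : ∀ᶠ ω in l, c ω ≠ 0) {m n : ℕ}
    (h : Tendsto (fun ω => ((m : ℝ) - n) * (Real.log ‖c ω‖ / t ω)) l atBot) :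
    Tendsto (fun ω => (u ω * c ω ^ m) / (w ω * c ω ^ n)) l (𝓝 0) := by
  rw [tendsto_zero_iff_norm_tendsto_zero]
  have h1 : Tendsto (fun ω => t ω * ((Real.log ‖u ω‖ / t ω - Real.log ‖w ω‖ / t ω) +
      ((m : ℝ) - n) * (Real.log ‖c ω‖ / t ω))) l atBot :=
    ht.atTop_mul_atBot₀ ((hu.2.sub hw.2).add_atBot h)
  refine (Real.tendsto_exp_atBot.comp h1).congr' ?_
  filter_upwards [hu.1, hw.1, hc0, ht.eventually_gt_atTop 0] with ω h1 h2 h3 h4
  have h1' := norm_pos_iff.2 h1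
  have h2' := norm_pos_iff.2 h2
  have h3' := norm_pos_iff.2 h3
  have e1 : t ω * ((Real.log ‖u ω‖ / t ω - Real.log ‖w ω‖ / t ω) +
      ((m : ℝ) - n) * (Real.log ‖c ω‖ / t ω)) =
      (Real.log ‖u ω‖ + m * Real.log ‖c ω‖) - (Real.log ‖w ω‖ + n * Real.log ‖c ω‖) := by
    field_simp
    ring
  simp only [Function.comp]
  rw [e1, Real.exp_sub, Real.exp_add, Real.exp_add, Real.exp_log h1', Real.exp_log h2',
    Real.exp_nat_mul, Real.exp_nat_mul, Real.exp_log h3', norm_div, norm_mul, norm_mul, norm_pow,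
    norm_pow]

lemma sum_lim {I : Type*} [Fintype I] [DecidableEq I] {A : I → Ω → ℂ} {i : I}
    (hA : ∀ k, Tendsto (A k) l (𝓝 (if k = i then 1 else 0))) (c : I → ℂ) :
    Tendsto (fun ω => ∑ k, c k * A k ω) l (𝓝 (c i)) := by
  have h1 : Tendsto (fun ω => ∑ k, c k * A k ω) l (𝓝 (∑ k, c k * (if k = i then (1 : ℂ) else 0))) :=
    tendsto_finsetSum _ fun k _ => (hA k).const_mul (c k)
  simpa using h1

end sizes

variable {Ω ι κ : Type*} [Fintype ι] [Nonempty ι] [Fintype κ] [Nonempty κ] {e : ι → ℕ} {g : κ → ℕ}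
  {l : Filter Ω} {t : Ω → ℝ} {a : Ω → ι → ℂ} {b : Ω → κ → ℂ} {p : (ι → ℝ) × (κ → ℝ)} {α : ι → ℝ}

/-- the terms of the product of the two polynomials -/
noncomputable def tm (e : ι → ℕ) (g : κ → ℕ) (a : ι → ℂ) (b : κ → ℂ) (z : ℂ) (q : ι × κ) : ℂ :=
  a q.1 * z ^ (e q.1) * (b q.2 * z ^ (g q.2))

lemma prod_eval (a : ι → ℂ) (b : κ → ℂ) (z : ℂ) :
    (Pol e a).eval z * (Pol g b).eval z = ∑ q : ι × κ, tm e g a b z q := by
  rw [Pol_eval, Pol_eval, Finset.sum_mul_sum, Fintype.sum_prod_type]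
  rfl

lemma wro_eq' (a : ι → ℂ) (b : κ → ℂ) (z : ℂ) :
    z * (wro (Pol e a) (Pol g b)).eval z =
      (∑ k, (e k : ℂ) * (a k * z ^ (e k))) * (Pol g b).eval z -
        (Pol e a).eval z * ∑ k, (g k : ℂ) * (b k * z ^ (g k)) := by
  rw [← Pol_deriv, ← Pol_deriv]
  unfold Pool.Agent.H762R2.Rt.wro
  rw [eval_sub, eval_mul, eval_mul]; ring

lemma wro_eval (a : ι → ℂ) (b : κ → ℂ) (z : ℂ) :
    z * (wro (Pol e a) (Pol g b)).eval z =
      ∑ q : ι × κ, ((e q.1 : ℂ) - (g q.2 : ℂ)) * tm e g a b z q := by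
  rw [wro_eq', Pol_eval, Pol_eval, Finset.sum_mul_sum, Finset.sum_mul_sum,
    ← Finset.sum_sub_distrib, Fintype.sum_prod_type]
  refine Finset.sum_congr rfl fun i _ => ?_
  rw [← Finset.sum_sub_distrib]
  refine Finset.sum_congr rfl fun j _ => ?_
  unfold tm
  ring

/-- critical points where one term of the numerator and one of the denominator dominate -/
lemma reg_case [l.NeBot] (ht : Tendsto t l atTop) (ha : ∀ i, Sz l t (fun ω => a ω i) (p.1 i))
    (hb : ∀ j, Sz l t (fun ω => b ω j) (p.2 j)) {c : Ω → ℂ} (hc0 : ∀ᶠ ω in l, c ω ≠ 0) {i : ι}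
    {j : κ}
    (hP : ∀ k, k ≠ i → Tendsto (fun ω => (a ω k * c ω ^ (e k)) / (a ω i * c ω ^ (e i))) l (𝓝 0))
    (hQ : ∀ k, k ≠ j → Tendsto (fun ω => (b ω k * c ω ^ (g k)) / (b ω j * c ω ^ (g j))) l (𝓝 0))
    (hW : ∀ᶠ ω in l, (wro (Pol e (a ω)) (Pol g (b ω))).eval (c ω) = 0) :
    e i = g j ∧ Sz l t (fun ω => R e g (a ω) (b ω) (c ω)) (p.1 i - p.2 j) ∧
      ∀ᶠ ω in l, (Pol e (a ω)).eval (c ω) ≠ 0 ∧ (Pol g (b ω)).eval (c ω) ≠ 0 := by
  classical
  have hA : ∀ k, Tendsto (fun ω => (a ω k * c ω ^ (e k)) / (a ω i * c ω ^ (e i))) l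
      (𝓝 (if k = i then 1 else 0)) := by
    intro k
    split_ifs with h
    · subst h
      refine tendsto_const_nhds.congr' ?_
      filter_upwards [hc0, (ha k).1] with ω h1 h2
      rw [div_self (mul_ne_zero h2 (pow_ne_zero _ h1))]
    · exact hP k h
  have hB : ∀ k, Tendsto (fun ω => (b ω k * c ω ^ (g k)) / (b ω j * c ω ^ (g j))) l
      (𝓝 (if k = j then 1 else 0)) := by
    intro k
    split_ifs with h
    · subst h
      refine tendsto_const_nhds.congr' ?_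
      filter_upwards [hc0, (hb k).1] with ω h1 h2
      rw [div_self (mul_ne_zero h2 (pow_ne_zero _ h1))]
    · exact hQ k h
  have s1 := sum_lim hA (fun _ => 1)
  have s2 := sum_lim hA (fun k => (e k : ℂ))
  have s3 := sum_lim hB (fun _ => 1)
  have s4 := sum_lim hB (fun k => (g k : ℂ))
  simp only [one_mul] at s1 s3
  have hlim := (s2.mul s3).sub (s1.mul s4)
  have hz : (e i : ℂ) * 1 - 1 * (g j : ℂ) = 0 := by
    refine tendsto_nhds_unique hlim (tendsto_const_nhds.congr' ?_)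
    filter_upwards [hW] with ω h1
    have h2 := wro_eq' (e := e) (g := g) (a ω) (b ω) (c ω)
    rw [h1, mul_zero, Pol_eval, Pol_eval] at h2
    simp only [← mul_div_assoc, ← Finset.sum_div]
    rw [div_mul_eq_mul_div, div_mul_eq_mul_div, div_div, div_div, ← sub_div, ← h2, zero_div]
  have hij : e i = g j := by
    have : (e i : ℂ) = g j := by linear_combination hz
    exact_mod_cast this
  have hPne : ∀ᶠ ω in l, (Pol e (a ω)).eval (c ω) ≠ 0 := by
    filter_upwards [s1.eventually_ne one_ne_zero] with ω h1 h2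
    rw [← Finset.sum_div, ← Pol_eval, h2, zero_div] at h1
    exact h1 rfl
  have hQne : ∀ᶠ ω in l, (Pol g (b ω)).eval (c ω) ≠ 0 := by
    filter_upwards [s3.eventually_ne one_ne_zero] with ω h1 h2
    rw [← Finset.sum_div, ← Pol_eval, h2, zero_div] at h1
    exact h1 rfl
  refine ⟨hij, ?_, hPne.and hQne⟩
  have h1 := (sz_div (ha i) (hb j)).mul (sz_of_tendsto ht (div_ne_zero one_ne_zero one_ne_zero)
    (s1.div s3 one_ne_zero))
  rw [add_zero] at h1
  refine sz_congr h1 ?_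
  filter_upwards [hc0, (ha i).1, (hb j).1, hPne, hQne] with ω k1 k2 k3 k4 k5
  simp only [Pi.div_apply]
  rw [← Finset.sum_div, ← Finset.sum_div, ← Pol_eval, ← Pol_eval]
  unfold R
  rw [hij]
  have k6 : c ω ^ g j ≠ 0 := pow_ne_zero _ k1
  field_simp

/-- critical points at corners -/
lemma corner_case [l.NeBot] (ht : Tendsto t l atTop)
    (ha : ∀ i, Sz l t (fun ω => a ω i) (p.1 i)) (hb : ∀ j, Sz l t (fun ω => b ω j) (p.2 j))
    (he : Function.Injective e) (hg : Function.Injective g) {c : Ω → ℂ} {x : ℝ}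
    (hx : ((∃ i, Dm e p.1 x i) ∧ ∃ j₁ j₂, Tw g p.2 x j₁ j₂) ∨
      ((∃ i₁ i₂, Tw e p.1 x i₁ i₂) ∧ ∃ j, Dm g p.2 x j)) (hc : Sz l t c x)
    (hW : ∀ᶠ ω in l, (wro (Pol e (a ω)) (Pol g (b ω))).eval (c ω) = 0) :
    Sz l t (fun ω => (Pol e (a ω)).eval (c ω)) (F e p.1 x) ∧
      Sz l t (fun ω => (Pol g (b ω)).eval (c ω)) (F g p.2 x) := by
  have hterm : ∀ q : ι × κ, Sz l t (fun ω => tm e g (a ω) (b ω) (c ω) q)
      (p.1 q.1 + (e q.1 : ℝ) * x + (p.2 q.2 + (g q.2 : ℝ) * x)) := fun q =>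
    ((ha q.1).mul (hc.pow (e q.1))).mul ((hb q.2).mul (hc.pow (g q.2)))
  have hsum : ∀ᶠ ω in l, ∑ q : ι × κ, ((e q.1 : ℂ) - (g q.2 : ℂ)) *
      tm e g (a ω) (b ω) (c ω) q = 0 := by
    filter_upwards [hW] with ω hω
    rw [← wro_eval, hω, mul_zero]
  have hprod : ∀ {M : ℝ}, Sz l t (fun ω => ∑ q : ι × κ, tm e g (a ω) (b ω) (c ω) q) M →
      Sz l t (fun ω => (Pol e (a ω)).eval (c ω) * (Pol g (b ω)).eval (c ω)) M := by
    intro M h
    exact sz_congr h (Eventually.of_forall fun ω => (prod_eval (a ω) (b ω) (c ω)).symm)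
  rcases hx with ⟨⟨i, hi⟩, ⟨j₁, j₂, hj⟩⟩ | ⟨⟨i₁, i₂, hi⟩, ⟨j, hj⟩⟩
  · -- a corner of the denominator
    have hP := dom_size ht ha hc hi
    refine ⟨hP, ?_⟩
    have h1 := two_top ht hterm (m₁ := (i, j₁)) (m₂ := (i, j₂)) (fun q hq1 hq2 => by
        simp only
        by_cases hqi : q.1 = i
        · have e1 : q.2 ≠ j₁ := fun h => hq1 (Prod.ext hqi h)
          have e2 : q.2 ≠ j₂ := fun h => hq2 (Prod.ext hqi h)
          have := hj.2.2 q.2 e1 e2
          rw [hqi]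
          linarith
        · have h2 := hi q.1 hqi
          have h3 := le_F (e := g) p.2 x q.2
          rw [hj.eq] at h3
          linarith)
      (n := fun q : ι × κ => ((e q.1 : ℂ) - (g q.2 : ℂ))) (by
        simp only
        intro h
        apply hj.1
        apply hg
        have h3 : (g j₁ : ℂ) = g j₂ := by linear_combination -h
        exact_mod_cast h3) hsum
    have h2 := sz_div (hprod h1) hP
    have e1 : p.1 (i, j₁).1 + (e (i, j₁).1 : ℝ) * x + (p.2 (i, j₁).2 + (g (i, j₁).2 : ℝ) * x) -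
        F e p.1 x = F g p.2 x := by
      rw [hi.eq, hj.eq]; simp only; ring
    rw [e1] at h2
    refine sz_congr h2 ?_
    filter_upwards [hP.1] with ω h3
    rw [mul_div_cancel_left₀ _ h3]
  · -- a corner of the numerator
    have hQ := dom_size ht hb hc hj
    refine ⟨?_, hQ⟩
    have h1 := two_top ht hterm (m₁ := (i₁, j)) (m₂ := (i₂, j)) (fun q hq1 hq2 => by
        simp only
        by_cases hqj : q.2 = j
        · have e1 : q.1 ≠ i₁ := fun h => hq1 (Prod.ext h hqj)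
          have e2 : q.1 ≠ i₂ := fun h => hq2 (Prod.ext h hqj)
          have := hi.2.2 q.1 e1 e2
          rw [hqj]
          linarith
        · have h2 := hj q.2 hqj
          have h3 := le_F (e := e) p.1 x q.1
          rw [hi.eq] at h3
          linarith)
      (n := fun q : ι × κ => ((e q.1 : ℂ) - (g q.2 : ℂ))) (by
        simp only
        intro h
        apply hi.1
        apply he
        have h3 : (e i₁ : ℂ) = e i₂ := by linear_combination h
        exact_mod_cast h3) hsum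
    have h2 := sz_div (hprod h1) hQ
    have e1 : p.1 (i₁, j).1 + (e (i₁, j).1 : ℝ) * x + (p.2 (i₁, j).2 + (g (i₁, j).2 : ℝ) * x) -
        F g p.2 x = F e p.1 x := by
      rw [hi.eq, hj.eq]; simp only; ring
    rw [e1] at h2
    refine sz_congr h2 ?_
    filter_upwards [hQ.1] with ω h3
    rw [mul_div_cancel_right₀ _ h3]

/-- the critical points different from `0` and `∞` -/
lemma crit_fate (ht : Tendsto t l atTop) (ha : ∀ i, Sz l t (fun ω => a ω i) (p.1 i))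
    (hb : ∀ j, Sz l t (fun ω => b ω j) (p.2 j)) (he : Function.Injective e)
    (hg : Function.Injective g) {S : Set ℕ} (hS : 1 ∈ S) (hth : TH S e g p) {j₀ : κ}
    (hj₀ : g j₀ = 0) {i₁ : ι} (hi₁ : ∀ k, e k ≤ e i₁) (hgi : ∀ k, g k ≤ e i₁)
    (hpos : 0 < e i₁) :
    ∀ᶠ ω in l, ∀ c : ℂ, c ≠ 0 → (wro (Pol e (a ω)) (Pol g (b ω))).eval c = 0 →
      (Pol e (a ω)).eval c ≠ 0 ∧ (Pol g (b ω)).eval c ≠ 0 ∧
        ∀ f, IsRat f (Pol e (a ω)) (Pol g (b ω)) → SinkS S f (c : OnePoint ℂ) := by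
  classical
  set l' : Filter (Ω × ℂ) := comap Prod.fst l ⊓
    𝓟 {q | q.2 ≠ 0 ∧ (wro (Pol e (a q.1)) (Pol g (b q.1))).eval q.2 = 0} with hl'
  have key : {q : Ω × ℂ | (Pol e (a q.1)).eval q.2 ≠ 0 ∧ (Pol g (b q.1)).eval q.2 ≠ 0 ∧
      ∀ f, IsRat f (Pol e (a q.1)) (Pol g (b q.1)) → SinkS S f (q.2 : OnePoint ℂ)} ∈ l' := by
    rw [Filter.mem_iff_ultrafilter]
    intro U hU
    have hmap : Tendsto Prod.fst (U : Filter (Ω × ℂ)) l :=
      tendsto_comap.mono_left (hU.trans inf_le_left)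
    have hdom : ∀ᶠ q in (U : Filter (Ω × ℂ)), q.2 ≠ 0 ∧
        (wro (Pol e (a q.1)) (Pol g (b q.1))).eval q.2 = 0 :=
      hU (mem_inf_of_right (mem_principal_self _))
    have hc0 : ∀ᶠ q in (U : Filter (Ω × ℂ)), q.2 ≠ 0 := hdom.mono fun q h => h.1
    have hW : ∀ᶠ q in (U : Filter (Ω × ℂ)),
        (wro (Pol e (a q.1)) (Pol g (b q.1))).eval q.2 = 0 := hdom.mono fun q h => h.2
    have ht' : Tendsto (fun q : Ω × ℂ => t q.1) U atTop := ht.comp hmap
    have ha' : ∀ i, Sz U (fun q : Ω × ℂ => t q.1) (fun q => a q.1 i) (p.1 i) := fun i =>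
      ⟨hmap.eventually (ha i).1, (ha i).2.comp hmap⟩
    have hb' : ∀ j, Sz U (fun q : Ω × ℂ => t q.1) (fun q => b q.1 j) (p.2 j) := fun j =>
      ⟨hmap.eventually (hb j).1, (hb j).2.comp hmap⟩
    -- it is enough to find the size of the critical value
    have fin : ∀ y : ℝ, Capt S e g p y →
        Sz U (fun q : Ω × ℂ => t q.1) (fun q => R e g (a q.1) (b q.1) q.2) y →
        (∀ᶠ q in (U : Filter (Ω × ℂ)), (Pol e (a q.1)).eval q.2 ≠ 0 ∧
          (Pol g (b q.1)).eval q.2 ≠ 0) →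
        {q : Ω × ℂ | (Pol e (a q.1)).eval q.2 ≠ 0 ∧ (Pol g (b q.1)).eval q.2 ≠ 0 ∧
          ∀ f, IsRat f (Pol e (a q.1)) (Pol g (b q.1)) → SinkS S f (q.2 : OnePoint ℂ)} ∈ U := by
      intro y hy hsz hne
      have hf := fate ht' ha' hb' he hg hS hsz hy hj₀ hi₁ hgi hpos
      have : ∀ᶠ q in (U : Filter (Ω × ℂ)), (Pol e (a q.1)).eval q.2 ≠ 0 ∧
          (Pol g (b q.1)).eval q.2 ≠ 0 ∧
          ∀ f, IsRat f (Pol e (a q.1)) (Pol g (b q.1)) → SinkS S f (q.2 : OnePoint ℂ) := by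
        filter_upwards [hf, hne] with q h1 h2
        refine ⟨h2.1, h2.2, fun f hf => ?_⟩
        apply SinkS.iter hf.cont 1
        rw [Function.iterate_one, hf.eval _ h2.2]
        exact h1 f hf
      exact this
    -- the size of the critical point
    obtain ⟨x, -, hx⟩ := isCompact_univ.ultrafilter_le_nhds
      (U.map (fun q : Ω × ℂ => ((Real.log ‖q.2‖ / t q.1 : ℝ) : EReal))) (by simp)
    have hx' : Tendsto (fun q : Ω × ℂ => ((Real.log ‖q.2‖ / t q.1 : ℝ) : EReal)) U (𝓝 x) := hx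
    have hbotA : ∀ (i : ι), (∀ k, k ≠ i → e i < e k) →
        Tendsto (fun q : Ω × ℂ => Real.log ‖q.2‖ / t q.1) U atBot → ∀ k, k ≠ i →
        Tendsto (fun q : Ω × ℂ => (a q.1 k * q.2 ^ (e k)) / (a q.1 i * q.2 ^ (e i))) U (𝓝 0) := by
      intro i hi hlim k hk
      refine ratio_far ht' (ha' k) (ha' i) hc0 (hlim.const_mul_atBot ?_)
      have : (e i : ℝ) < e k := by exact_mod_cast hi k hk
      linarith
    have hbotB : ∀ (i : κ), (∀ k, k ≠ i → g i < g k) →
        Tendsto (fun q : Ω × ℂ => Real.log ‖q.2‖ / t q.1) U atBot → ∀ k, k ≠ i →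
        Tendsto (fun q : Ω × ℂ => (b q.1 k * q.2 ^ (g k)) / (b q.1 i * q.2 ^ (g i))) U (𝓝 0) := by
      intro i hi hlim k hk
      refine ratio_far ht' (hb' k) (hb' i) hc0 (hlim.const_mul_atBot ?_)
      have : (g i : ℝ) < g k := by exact_mod_cast hi k hk
      linarith
    have htopA : ∀ (i : ι), (∀ k, k ≠ i → e k < e i) →
        Tendsto (fun q : Ω × ℂ => Real.log ‖q.2‖ / t q.1) U atTop → ∀ k, k ≠ i →
        Tendsto (fun q : Ω × ℂ => (a q.1 k * q.2 ^ (e k)) / (a q.1 i * q.2 ^ (e i))) U (𝓝 0) := by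
      intro i hi hlim k hk
      refine ratio_far ht' (ha' k) (ha' i) hc0 (hlim.const_mul_atTop_of_neg ?_)
      have : (e k : ℝ) < e i := by exact_mod_cast hi k hk
      linarith
    have htopB : ∀ (i : κ), (∀ k, k ≠ i → g k < g i) →
        Tendsto (fun q : Ω × ℂ => Real.log ‖q.2‖ / t q.1) U atTop → ∀ k, k ≠ i →
        Tendsto (fun q : Ω × ℂ => (b q.1 k * q.2 ^ (g k)) / (b q.1 i * q.2 ^ (g i))) U (𝓝 0) := by
      intro i hi hlim k hk
      refine ratio_far ht' (hb' k) (hb' i) hc0 (hlim.const_mul_atTop_of_neg ?_)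
      have : (g k : ℝ) < g i := by exact_mod_cast hi k hk
      linarith
    induction x with
    | bot =>
      have hlim : Tendsto (fun q : Ω × ℂ => Real.log ‖q.2‖ / t q.1) U atBot :=
        EReal.tendsto_coe_nhds_bot_iff.1 hx'
      obtain ⟨i, hi⟩ := Finite.exists_min e
      obtain ⟨j, hj⟩ := Finite.exists_min g
      have hi' : ∀ k, k ≠ i → e i < e k := fun k hk =>
        lt_of_le_of_ne (hi k) (fun h => hk (he h.symm))
      have hj' : ∀ k, k ≠ j → g j < g k := fun k hk =>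
        lt_of_le_of_ne (hj k) (fun h => hk (hg h.symm))
      obtain ⟨h1, h2, h3⟩ := reg_case ht' ha' hb' hc0 (hbotA i hi' hlim) (hbotB j hj' hlim) hW
      obtain ⟨y, h4, h5⟩ := ((dm_bot (α := p.1) hi').and (dm_bot (α := p.2) hj')).exists
      exact fin _ (hth.flat he hg h4 h5 h1 hj₀ hpos) h2 h3
    | top =>
      have hlim : Tendsto (fun q : Ω × ℂ => Real.log ‖q.2‖ / t q.1) U atTop :=
        EReal.tendsto_coe_nhds_top_iff.1 hx'
      obtain ⟨i, hi⟩ := Finite.exists_max e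
      obtain ⟨j, hj⟩ := Finite.exists_max g
      have hi' : ∀ k, k ≠ i → e k < e i := fun k hk =>
        lt_of_le_of_ne (hi k) (fun h => hk (he h))
      have hj' : ∀ k, k ≠ j → g k < g j := fun k hk =>
        lt_of_le_of_ne (hj k) (fun h => hk (hg h))
      obtain ⟨h1, h2, h3⟩ := reg_case ht' ha' hb' hc0 (htopA i hi' hlim) (htopB j hj' hlim) hW
      obtain ⟨y, h4, h5⟩ := ((dm_top (α := p.1) hi').and (dm_top (α := p.2) hj')).exists
      exact fin _ (hth.flat he hg h4 h5 h1 hj₀ hpos) h2 h3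
    | coe x =>
      have hlim : Tendsto (fun q : Ω × ℂ => Real.log ‖q.2‖ / t q.1) U (𝓝 x) :=
        EReal.tendsto_coe.1 hx'
      have hc : Sz U (fun q : Ω × ℂ => t q.1) (fun q => q.2) x := ⟨hc0, hlim⟩
      by_cases hreg : Reg e g p x
      · obtain ⟨⟨i, hi⟩, ⟨j, hj⟩⟩ := hreg
        obtain ⟨h1, h2, h3⟩ := reg_case (e := e) (g := g) ht' ha' hb' hc0 (i := i) (j := j)
          (fun k hk => ((ha' k).mul (hc.pow (e k))).ratio ht' ((ha' i).mul (hc.pow (e i)))
            (hi k hk))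
          (fun k hk => ((hb' k).mul (hc.pow (g k))).ratio ht' ((hb' j).mul (hc.pow (g j)))
            (hj k hk)) hW
        exact fin _ (hth.flat he hg hi hj h1 hj₀ hpos) h2 h3
      · have hx2 : ((∃ i, Dm e p.1 x i) ∧ ∃ j₁ j₂, Tw g p.2 x j₁ j₂) ∨
            ((∃ i₁ i₂, Tw e p.1 x i₁ i₂) ∧ ∃ j, Dm g p.2 x j) := by
          rcases hth.simple x with ⟨h1, h2 | h2⟩ | h
          · exact absurd ⟨h1, h2⟩ hreg
          · exact Or.inl ⟨h1, h2⟩
          · exact Or.inr h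
        obtain ⟨h1, h2⟩ := corner_case ht' ha' hb' he hg hx2 hc hW
        exact fin _ (hth.cap x hreg) (sz_div h1 h2) (h1.1.and h2.1)
  have key' : ∀ᶠ q in l', (Pol e (a q.1)).eval q.2 ≠ 0 ∧ (Pol g (b q.1)).eval q.2 ≠ 0 ∧
      ∀ f, IsRat f (Pol e (a q.1)) (Pol g (b q.1)) → SinkS S f (q.2 : OnePoint ℂ) := key
  rw [hl', eventually_inf_principal, eventually_comap] at key'
  filter_upwards [key'] with ω hω c hc hW
  exact hω (ω, c) rfl ⟨hc, hW⟩

end Pool.Agent.K3h81.LD
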