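import Mathlib
import Pool.Agent.K3h81.LD.Crit

/-!
# Rational maps with coefficients of generic logarithmic size are hyperbolic
-/

set_option autoImplicit false

open Filter Topology MeasureTheory Polynomial
open scoped OnePoint

set_option linter.unusedSectionVars false

namespace Pool.Agent.K3h81.LD

open Pool.Agent.TH639.LS
open Pool.Agent.Helper114.Herman Pool.Agent.H462R2.AP Pool.Agent.Helper114.Konig
open Pool.Agent.H762R2.Rt (wro)

/-- all critical points are attracted by attracting cycles with period in `S` -/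
def HypS (S : Set ℕ) (d : ℕ) (P Q : ℂ[X]) : Prop :=
  IsCoprime P Q ∧ max P.natDegree Q.natDegree = d ∧ ∃ f : OnePoint ℂ → OnePoint ℂ, Continuous f ∧
    (∀ z : ℂ, Q.eval z ≠ 0 → f (z : OnePoint ℂ) = ((P.eval z / Q.eval z : ℂ) : OnePoint ℂ)) ∧
    ∀ c : OnePoint ℂ, (¬ ∃ U ∈ 𝓝 c, Set.InjOn f U) → SinkS S f c

variable {Ω ι κ : Type*} [Fintype ι] [Nonempty ι] [Fintype κ] [Nonempty κ] {e : ι → ℕ} {g : κ → ℕ}
  {l : Filter Ω} {t : Ω → ℝ} {a : Ω → ι → ℂ} {b : Ω → κ → ℂ} {p : (ι → ℝ) × (κ → ℝ)} {α : ι → ℝ}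

lemma eval_zero_Pol {a : ι → ℂ} (he : Function.Injective e) {i : ι} (hi : e i = 0) :
    (Pol e a).eval 0 = a i := by
  rw [← coeff_zero_eq_eval_zero, ← hi, coeff_Pol he]

/-- the point zero -/
lemma zero_fate (ht : Tendsto t l atTop) (ha : ∀ i, Sz l t (fun ω => a ω i) (p.1 i))
    (hb : ∀ j, Sz l t (fun ω => b ω j) (p.2 j)) (he : Function.Injective e)
    (hg : Function.Injective g) {S : Set ℕ} (hS : 1 ∈ S) (hth : TH S e g p) {j₀ : κ}
    (hj₀ : g j₀ = 0) {i₁ : ι} (hi₁ : ∀ k, e k ≤ e i₁) (hgi : ∀ k, g k ≤ e i₁)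
    (hpos : 0 < e i₁) :
    ∀ᶠ ω in l, ∀ f, IsRat f (Pol e (a ω)) (Pol g (b ω)) →
      (wro (Pol e (a ω)) (Pol g (b ω))).eval 0 ≠ 0 ∨ SinkS S f ((0 : ℂ) : OnePoint ℂ) := by
  obtain ⟨i₀, hi₀⟩ := Finite.exists_min e
  have hi₀' : ∀ k, k ≠ i₀ → e i₀ < e k := fun k hk =>
    lt_of_le_of_ne (hi₀ k) (fun h => hk (he h.symm))
  have hj₀' : ∀ k, k ≠ j₀ → g j₀ < g k := fun k hk => by
    rw [hj₀, Nat.pos_iff_ne_zero]
    intro h0
    exact hk (hg (by rw [h0, hj₀]))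
  rcases Nat.lt_or_ge (e i₀) 2 with hlt | hge
  · rcases Nat.lt_or_ge (e i₀) 1 with h0 | h1
    · -- the value at zero is finite and nonzero
      have hi0 : e i₀ = 0 := by omega
      obtain ⟨y, h4, h5⟩ := ((dm_bot (α := p.1) hi₀').and (dm_bot (α := p.2) hj₀')).exists
      have hcap := hth.flat he hg h4 h5 (by rw [hi0, hj₀]) hj₀ hpos
      have hf := fate ht ha hb he hg hS (sz_div (ha i₀) (hb j₀)) hcap hj₀ hi₁ hgi hpos
      filter_upwards [hf, (hb j₀).1] with ω h1 h2 f hf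
      right
      apply SinkS.iter hf.cont 1
      rw [Function.iterate_one, hf.eval 0 (by rw [eval_zero_Pol hg hj₀]; exact h2),
        eval_zero_Pol he hi0, eval_zero_Pol hg hj₀]
      exact h1 f hf
    · -- a simple zero
      have hi1 : e i₀ = 1 := by omega
      filter_upwards [(ha i₀).1, (hb j₀).1] with ω h1 h2 f hf
      left
      have e1 : (Pol e (a ω)).eval 0 = 0 := by
        rw [← coeff_zero_eq_eval_zero]
        apply coeff_Pol_zero
        intro k hk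
        have := hi₀ k
        omega
      have e2 : (derivative (Pol e (a ω))).eval 0 = a ω i₀ := by
        rw [← coeff_zero_eq_eval_zero, coeff_derivative]
        simp only [zero_add, Nat.cast_zero, mul_one]
        rw [← hi1, coeff_Pol he]
      unfold Pool.Agent.H762R2.Rt.wro
      rw [eval_sub, eval_mul, eval_mul, e1, e2, eval_zero_Pol hg hj₀, zero_mul, sub_zero]
      exact mul_ne_zero h1 h2
  · -- a superattracting fixed point
    have hex : ∃ X : ℝ, Dm g p.2 X j₀ ∧ G e g p X < X := by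
      have hpos : (0 : ℝ) < (e i₀ : ℝ) - 1 := by
        have : (2 : ℝ) ≤ e i₀ := by exact_mod_cast hge
        linarith
      obtain ⟨X, ⟨h1, h2⟩, h3⟩ := (((dm_bot (e := e) (α := p.1) hi₀').and
        (dm_bot (e := g) (α := p.2) hj₀')).and
        ((tendsto_id.const_mul_atBot hpos).eventually_lt_atBot (p.2 j₀ - p.1 i₀))).exists
      refine ⟨X, h2, ?_⟩
      unfold G
      rw [h1.eq, h2.eq, hj₀]
      have h4 : ((e i₀ : ℝ) - 1) * X < p.2 j₀ - p.1 i₀ := h3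
      push_cast
      linarith
    obtain ⟨X, hX1, hX2⟩ := hex
    filter_upwards [trap0 ht ha hb hj₀ hX1 hX2] with ω k1 f hf
    right
    refine ⟨1, hS, one_pos, Sink1.sinkP_one ?_⟩
    refine sink_plane hf (w₀ := 0) (Real.exp_pos (t ω * X)) (fun z hz => ?_) (fun z hz => ?_)
      (by rw [sub_zero, norm_zero]; positivity)
    · rw [sub_zero] at hz; exact (k1 z hz).1
    · rw [sub_zero] at hz ⊢; exact (k1 z hz).2

/-- the point infinity -/
lemma inf_fate (ht : Tendsto t l atTop) (ha : ∀ i, Sz l t (fun ω => a ω i) (p.1 i))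
    (hb : ∀ j, Sz l t (fun ω => b ω j) (p.2 j)) (he : Function.Injective e)
    (hg : Function.Injective g) {S : Set ℕ} (hS : 1 ∈ S) (hth : TH S e g p) {j₀ : κ}
    (hj₀ : g j₀ = 0) {i₁ : ι} (hi₁ : ∀ k, e k ≤ e i₁) (hgi : ∀ k, g k ≤ e i₁)
    (hpos : 0 < e i₁) :
    ∀ᶠ ω in l, ∀ f, IsRat f (Pol e (a ω)) (Pol g (b ω)) →
      (∃ U ∈ 𝓝 (∞ : OnePoint ℂ), Set.InjOn f U) ∨ SinkS S f (∞ : OnePoint ℂ) := by
  obtain ⟨j₁, hj₁⟩ := Finite.exists_max g
  have hi₁' : ∀ k, k ≠ i₁ → e k < e i₁ := fun k hk =>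
    lt_of_le_of_ne (hi₁ k) (fun h => hk (he h))
  have hj₁' : ∀ k, k ≠ j₁ → g k < g j₁ := fun k hk =>
    lt_of_le_of_ne (hj₁ k) (fun h => hk (hg h))
  have hdegev : ∀ᶠ ω in l, e i₁ = max (Pol e (a ω)).natDegree (Pol g (b ω)).natDegree := by
    filter_upwards [(ha i₁).1] with ω k4
    rw [natDegree_Pol he hi₁ k4, max_eq_left (natDegree_Pol_le hgi)]
  have hinf : (∞ : OnePoint ℂ) = ch true 0 := by simp [ch, sinv_zero]
  have hcase : g j₁ = e i₁ ∨ g j₁ + 1 = e i₁ ∨ g j₁ + 2 ≤ e i₁ := by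
    have := hgi j₁
    omega
  rcases hcase with h0 | h1 | h2
  · -- the value at infinity is finite and nonzero
    obtain ⟨y, h4, h5⟩ := ((dm_top (α := p.1) hi₁').and (dm_top (α := p.2) hj₁')).exists
    have hcap := hth.flat he hg h4 h5 h0.symm hj₀ hpos
    have hf := fate ht ha hb he hg hS (sz_div (ha i₁) (hb j₁)) hcap hj₀ hi₁ hgi hpos
    filter_upwards [hf, (hb j₁).1, hdegev] with ω h1 h2 hdeg f hf
    right
    apply SinkS.iter hf.cont 1
    rw [Function.iterate_one]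
    have e1 : f (∞ : OnePoint ℂ) = ((a ω i₁ / b ω j₁ : ℂ) : OnePoint ℂ) := by
      rw [hinf, (map_ch hf hdeg hpos 0).2, hom_zero, hom_zero, one_pow, mul_one, mul_one,
        coeff_Pol he, ← h0, coeff_Pol hg, pr_ne h2]
    rw [e1]
    exact h1 f hf
  · -- infinity is a simple fixed point
    filter_upwards [(ha i₁).1, (hb j₁).1, hdegev] with ω h2 h3 hdeg f hf
    left
    refine inj_inf hf hdeg hpos (by rw [coeff_Pol he]; exact h2) ?_ ?_
    · apply coeff_Pol_zero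
      intro k hk
      have := hj₁ k
      omega
    · have e1 : e i₁ - 1 = g j₁ := by omega
      rw [e1, coeff_Pol hg]; exact h3
  · -- infinity is superattracting
    have hex : ∃ X : ℝ, Dm e p.1 X i₁ ∧ X < G e g p X := by
      have hpos : (0 : ℝ) < ((e i₁ : ℝ) - g j₁) - 1 := by
        have : ((g j₁ : ℝ)) + 2 ≤ e i₁ := by exact_mod_cast h2
        linarith
      obtain ⟨X, ⟨h1, h2⟩, h3⟩ := (((dm_top (e := e) (α := p.1) hi₁').and
        (dm_top (e := g) (α := p.2) hj₁')).and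
        ((tendsto_id.const_mul_atTop hpos).eventually_gt_atTop (p.2 j₁ - p.1 i₁))).exists
      refine ⟨X, h1, ?_⟩
      unfold G
      rw [h1.eq, h2.eq]
      have h4 : p.2 j₁ - p.1 i₁ < (((e i₁ : ℝ) - g j₁) - 1) * X := h3
      linarith
    obtain ⟨X, hX1, hX2⟩ := hex
    filter_upwards [trapInf ht ha hb hi₁ hgi hX1 hX2, hdegev] with ω k1 hdeg f hf
    right
    rw [hinf]
    exact ⟨1, hS, one_pos, (sink_inf hf hdeg hpos (Real.exp_pos (t ω * (-X)))
      (fun w hw => (k1 w hw).1) (fun w hw => (k1 w hw).2)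
      (by rw [norm_zero]; positivity)).sinkP_one⟩

/-- in a generic direction the rational maps are eventually hyperbolic -/
theorem eventually_hyp (ht : Tendsto t l atTop) (ha : ∀ i, Sz l t (fun ω => a ω i) (p.1 i))
    (hb : ∀ j, Sz l t (fun ω => b ω j) (p.2 j)) (he : Function.Injective e)
    (hg : Function.Injective g) {S : Set ℕ} (hS : 1 ∈ S) (hth : TH S e g p) {j₀ : κ}
    (hj₀ : g j₀ = 0) {i₁ : ι} (hi₁ : ∀ k, e k ≤ e i₁) (hgi : ∀ k, g k ≤ e i₁)
    (hpos : 0 < e i₁) :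
    ∀ᶠ ω in l, HypS S (e i₁) (Pol e (a ω)) (Pol g (b ω)) := by
  filter_upwards [crit_fate ht ha hb he hg hS hth hj₀ hi₁ hgi hpos,
    zero_fate ht ha hb he hg hS hth hj₀ hi₁ hgi hpos,
    inf_fate ht ha hb he hg hS hth hj₀ hi₁ hgi hpos, (hb j₀).1, (ha i₁).1] with ω h1 h2 h3 h4 h5
  have hQ0 : (Pol g (b ω)).eval 0 ≠ 0 := by rw [eval_zero_Pol hg hj₀]; exact h4
  have hQne : Pol g (b ω) ≠ 0 := by
    intro h
    rw [h] at hQ0
    simp at hQ0
  have hcop : IsCoprime (Pol e (a ω)) (Pol g (b ω)) := by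
    rw [Polynomial.isCoprime_iff_aeval_ne_zero_of_isAlgClosed ℂ ℂ]
    intro c
    simp only [coe_aeval_eq_eval]
    by_cases hc : c = 0
    · right; rw [hc]; exact hQ0
    · by_contra hcon
      push Not at hcon
      have hW : (wro (Pol e (a ω)) (Pol g (b ω))).eval c = 0 := by
        unfold Pool.Agent.H762R2.Rt.wro
        rw [eval_sub, eval_mul, eval_mul, hcon.1, hcon.2]; ring
      exact (h1 c hc hW).1 hcon.1
  obtain ⟨f, hf, -⟩ := exists_isRat hcop hQne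
  have hdeg : e i₁ = max (Pol e (a ω)).natDegree (Pol g (b ω)).natDegree := by
    rw [natDegree_Pol he hi₁ h5, max_eq_left (natDegree_Pol_le hgi)]
  have hd0 : 0 < max (Pol e (a ω)).natDegree (Pol g (b ω)).natDegree := by rw [← hdeg]; exact hpos
  refine ⟨hcop, hdeg.symm, f, hf.cont, hf.eval, ?_⟩
  intro c hnot
  induction c using OnePoint.rec with
  | infty => exact (h3 f hf).resolve_left hnot
  | coe c =>
    by_cases hW : (wro (Pol e (a ω)) (Pol g (b ω))).eval c = 0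
    · by_cases hc : c = 0
      · subst hc
        rcases h2 f hf with h | h
        · exact absurd hW h
        · exact h
      · exact (h1 c hc hW).2.2 f hf
    · exact absurd (inj_of_wro hf hd0 hW) hnot

theorem dir (he : Function.Injective e) (hg : Function.Injective g) {S : Set ℕ} (hS : 1 ∈ S)
    (hth : TH S e g p) {j₀ : κ} (hj₀ : g j₀ = 0) {i₁ : ι} (hi₁ : ∀ k, e k ≤ e i₁)
    (hgi : ∀ k, g k ≤ e i₁) (hpos : 0 < e i₁) :
    ∃ δ : ℝ, 0 < δ ∧ ∃ t₀ : ℝ, ∀ t : ℝ, t₀ ≤ t → ∀ (a : ι → ℂ) (b : κ → ℂ),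
      (∀ i, a i ≠ 0) → (∀ j, b j ≠ 0) → (∀ i, |Real.log ‖a i‖ - t * p.1 i| ≤ δ * t) →
      (∀ j, |Real.log ‖b j‖ - t * p.2 j| ≤ δ * t) → HypS S (e i₁) (Pol e a) (Pol g b) := by
  set φ : ℝ × ((ι → ℂ) × (κ → ℂ)) → (ι → ℝ) × (κ → ℝ) := fun ω =>
    (fun i => Real.log ‖ω.2.1 i‖ / ω.1, fun j => Real.log ‖ω.2.2 j‖ / ω.1) with hφ
  set NZ : Set (ℝ × ((ι → ℂ) × (κ → ℂ))) := {ω | (∀ i, ω.2.1 i ≠ 0) ∧ ∀ j, ω.2.2 j ≠ 0} with hNZ
  set L : Filter (ℝ × ((ι → ℂ) × (κ → ℂ))) := (comap Prod.fst atTop ⊓ comap φ (𝓝 p)) ⊓ 𝓟 NZ with hL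
  have hnz : ∀ᶠ ω in L, (∀ i, ω.2.1 i ≠ 0) ∧ ∀ j, ω.2.2 j ≠ 0 :=
    mem_inf_of_right (mem_principal_self _)
  have ht : Tendsto (fun ω : ℝ × ((ι → ℂ) × (κ → ℂ)) => ω.1) L atTop :=
    tendsto_comap.mono_left (inf_le_left.trans inf_le_left)
  have hgt : Tendsto φ L (𝓝 p) := tendsto_comap.mono_left (inf_le_left.trans inf_le_right)
  have h1 : Tendsto (fun ω => (φ ω).1) L (𝓝 p.1) := (continuous_fst.tendsto p).comp hgt
  have h2 : Tendsto (fun ω => (φ ω).2) L (𝓝 p.2) := (continuous_snd.tendsto p).comp hgt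
  have key := eventually_hyp (e := e) (g := g) (p := p)
    (a := fun ω : ℝ × ((ι → ℂ) × (κ → ℂ)) => ω.2.1) (b := fun ω => ω.2.2) ht
    (fun i => ⟨hnz.mono fun ω h => h.1 i, (tendsto_pi_nhds.1 h1) i⟩)
    (fun j => ⟨hnz.mono fun ω h => h.2 j, (tendsto_pi_nhds.1 h2) j⟩) he hg hS hth hj₀ hi₁ hgi hpos
  rw [hL, eventually_inf_principal] at key
  have hbasis := ((atTop_basis (α := ℝ)).comap
    (Prod.fst (α := ℝ) (β := (ι → ℂ) × (κ → ℂ)))).inf
    ((Metric.nhds_basis_closedBall (x := p)).comap φ)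
  obtain ⟨⟨t₀, δ⟩, ⟨-, hδ⟩, hpr⟩ := hbasis.eventually_iff.1 key
  simp only at hδ hpr
  refine ⟨δ, hδ, max t₀ 1, fun t htt a b ha0 hb0 haδ hbδ => ?_⟩
  have ht0 : 0 < t := lt_of_lt_of_le one_pos ((le_max_right _ _).trans htt)
  refine hpr (x := (t, (a, b))) ⟨(le_max_left _ _).trans htt, ?_⟩ ⟨ha0, hb0⟩
  have e1 : ∀ (u : ℂ) (v : ℝ), |Real.log ‖u‖ - t * v| ≤ δ * t →
      |Real.log ‖u‖ / t - v| ≤ δ := by
    intro u v h
    have e2 : Real.log ‖u‖ / t - v = (Real.log ‖u‖ - t * v) / t := by field_simp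
    rw [e2, abs_div, abs_of_pos ht0, div_le_iff₀ ht0]
    exact h
  rw [Set.mem_preimage, Metric.mem_closedBall, Prod.dist_eq, max_le_iff, dist_pi_le_iff hδ.le,
    dist_pi_le_iff hδ.le]
  constructor
  · intro i
    rw [Real.dist_eq]
    exact e1 _ _ (haδ i)
  · intro j
    rw [Real.dist_eq]
    exact e1 _ _ (hbδ j)

lemma Capt.mono {S T : Set ℕ} (hST : S ⊆ T) {y : ℝ} (h : Capt S e g p y) : Capt T e g p y := by
  refine ⟨h.reg, ?_⟩
  rcases h.fate with ⟨m, n, h1, h2⟩ | h1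
  · exact Or.inl ⟨m, n, hST h1, h2⟩
  · exact Or.inr h1

lemma TH.mono {S T : Set ℕ} (hST : S ⊆ T) (h : TH S e g p) : TH T e g p :=
  ⟨h.simple, fun x hx => (h.cap x hx).mono hST⟩

end Pool.Agent.K3h81.LD
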